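import Pool.Agent.Helper7.FE.Main
import Pool.Agent.Helper87.FKF.P1

/-!
# The finite check for rational tuples, and the final statement
-/

open Finset

namespace Pool.Agent.Helper7.FE

open Pool.Agent.Helper7.FR Pool.Agent.Helper27.FK

/-- the finite condition: residues `b i` modulo `L` such that for every `m < L` exactly one `i`
satisfies `(m p i + b i) mod L < p i`. -/
def FiniteCheck {n : ℕ} (L : ℕ) (p : Fin n → ℕ) : Prop :=
  ∃ b : Fin n → ℕ, (∀ i, b i < L) ∧ ∀ m < L, ∃! i, (m * p i + b i) % L < p i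

lemma mem_Sset_iff_int {L p : ℤ} (hL : 0 < L) (hp : 0 < p) (_hpL : p ≤ L) {θ : ℝ} (m : ℤ) :
    m ∈ Sset ((p:ℝ) / L) θ ↔ (m * p + ⌊(L:ℝ) * θ⌋) % L < p := by
  have hL' : (0:ℝ) < L := by exact_mod_cast hL
  have hp' : (0:ℝ) < p := by exact_mod_cast hp
  rw [mem_Sset (div_pos hp' hL')]
  have h1 : ∀ k : ℤ, ⌊(k:ℝ) * ((p:ℝ) / L) + θ⌋ = (k * p + ⌊(L:ℝ) * θ⌋) / L := by
    intro k
    have e : (k:ℝ) * ((p:ℝ) / L) + θ = (((k * p : ℤ) : ℝ) + L * θ) / L := by
      push_cast
      field_simp
    rw [e]
    apply le_antisymm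
    · rw [Int.le_ediv_iff_mul_le hL, ← Int.floor_intCast_add, Int.le_floor]
      push_cast
      have := Int.floor_le ((((k * p : ℤ) : ℝ) + L * θ) / L)
      rw [le_div_iff₀ hL'] at this
      push_cast at this
      exact this
    · rw [Int.le_floor, le_div_iff₀ hL']
      have h2 := Int.ediv_mul_le (k * p + ⌊(L:ℝ) * θ⌋) hL.ne'
      have h3 := Int.floor_le ((L:ℝ) * θ)
      have h4 : (((k * p + ⌊(L:ℝ) * θ⌋) / L * L : ℤ) : ℝ) ≤ ((k * p + ⌊(L:ℝ) * θ⌋ : ℤ) : ℝ) := by
        exact_mod_cast h2
      push_cast at h4 ⊢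
      linarith
  rw [h1, h1]
  set B := ⌊(L:ℝ) * θ⌋
  have e2 : (m - 1) * p + B = m * p + B - p := by ring
  rw [e2]
  set X := m * p + B
  have h5 := Int.emod_add_mul_ediv X L
  have h6 := Int.emod_nonneg X hL.ne'
  have h7 := Int.emod_lt_of_pos X hL
  constructor
  · intro h
    by_contra hge
    push Not at hge
    have : X / L ≤ (X - p) / L := by
      rw [Int.le_ediv_iff_mul_le hL]
      linarith [mul_comm L (X / L)]
    omega
  · intro h
    rw [Int.ediv_lt_iff_lt_mul hL]
    linarith [mul_comm L (X / L)]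

lemma finiteCheck_iff {n : ℕ} {L : ℕ} {p : Fin n → ℕ} (hL : 0 < L) (hp : ∀ i, 0 < p i)
    (hpL : ∀ i, p i ≤ L) : Admissible (fun i => (p i : ℝ) / L) ↔ FiniteCheck L p := by
  have hL' : (0:ℝ) < L := by exact_mod_cast hL
  have key : ∀ (i : Fin n) (θ : ℝ) (m : ℤ), m ∈ Sset ((p i : ℝ) / L) θ ↔
      (m * p i + ⌊(L:ℝ) * θ⌋) % L < p i := by
    intro i θ m
    have := mem_Sset_iff_int (L := L) (p := p i) (by exact_mod_cast hL) (by exact_mod_cast hp i)
      (by exact_mod_cast hpL i) (θ := θ) m
    push_cast at this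
    exact this
  constructor
  · rintro ⟨θ, hθ, hc⟩
    refine ⟨fun i => ⌊(L:ℝ) * θ i⌋.toNat, ?_, ?_⟩
    · intro i
      have h1 : 0 ≤ ⌊(L:ℝ) * θ i⌋ := Int.floor_nonneg.2 (mul_nonneg hL'.le (hθ i).1)
      have h2 : ⌊(L:ℝ) * θ i⌋ < L := by
        rw [Int.floor_lt]
        have := (hθ i).2
        push_cast
        nlinarith
      dsimp only
      omega
    · intro m _
      have h3 : ∀ i, ((m * p i + ⌊(L:ℝ) * θ i⌋.toNat) % L < p i ↔
          (m : ℤ) ∈ Sset ((p i : ℝ) / L) (θ i)) := by
        intro i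
        have h1 : 0 ≤ ⌊(L:ℝ) * θ i⌋ := Int.floor_nonneg.2 (mul_nonneg hL'.le (hθ i).1)
        rw [key]
        obtain ⟨q, hq⟩ := Int.eq_ofNat_of_zero_le h1
        rw [hq, Int.toNat_natCast]
        norm_cast
      obtain ⟨i, hi, huni⟩ := hc m
      exact ⟨i, (h3 i).2 hi, fun j hj => huni j ((h3 j).1 hj)⟩
  · rintro ⟨b, hb, hc⟩
    refine ⟨fun i => (b i : ℝ) / L, fun i => ⟨by positivity, ?_⟩, ?_⟩
    · rw [div_lt_one hL']
      exact_mod_cast hb i
    · intro m
      have hL0 : (L:ℤ) ≠ 0 := by exact_mod_cast hL.ne'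
      have hmn := Int.emod_nonneg m hL0
      have hml := Int.emod_lt_of_pos m (show (0:ℤ) < L by exact_mod_cast hL)
      obtain ⟨k, hk⟩ := Int.eq_ofNat_of_zero_le hmn
      have h3 : ∀ i, (m ∈ Sset ((p i : ℝ) / L) ((b i : ℝ) / L) ↔
          (k * p i + b i) % L < p i) := by
        intro i
        rw [key, mul_div_cancel₀ _ hL'.ne']
        have h4 : ⌊(b i : ℝ)⌋ = (b i : ℤ) := Int.floor_natCast _
        rw [h4]
        have h5 : (m * (p i : ℤ) + b i) % L = (k * p i + b i : ℤ) % L := by
          rw [← hk]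
          apply Int.emod_emod_of_dvd _ (dvd_refl _) |>.symm.trans
          conv_lhs => rw [← Int.emod_add_mul_ediv m L]
          have e : (m % L + L * (m / L)) * (p i : ℤ) + b i =
              m % L * (p i : ℤ) + b i + L * (m / L * (p i : ℤ)) := by ring
          rw [e, Int.add_mul_emod_self_left, Int.emod_emod_of_dvd _ (dvd_refl _)]
        rw [h5]
        norm_cast
      obtain ⟨i, hi, huni⟩ := hc k (by omega)
      exact ⟨i, (h3 i).2 hi, fun j hj => huni j ((h3 j).1 hj)⟩

/-- **the effective classification** -/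
theorem classification {n : ℕ} {r : Fin n → ℝ} (h01 : ∀ i, 0 < r i ∧ r i < 1)
    (hs : ∑ i, r i = 1) :
    Admissible r ↔ TwoLetter r ∨ ∃ (L : ℕ) (p : Fin n → ℕ), L ≤ (16 * n) ^ (2 ^ n - 1) ∧
      (∀ i, r i = (p i : ℝ) / L) ∧ FiniteCheck L p := by
  have hn : 0 < n := by
    rcases Nat.eq_zero_or_pos n with h | h
    · subst h
      simp at hs
    · exact h
  constructor
  · intro ha
    by_cases hT : TwoLetter r
    · exact Or.inl hT
    · obtain ⟨L, hL, hLB, hz⟩ := effective h01 hs ha hT
      choose z hz using hz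
      have hL' : (0:ℝ) < L := by exact_mod_cast hL
      have hzpos : ∀ i, 0 < z i := by
        intro i
        have : (0:ℝ) < z i := by
          rw [← hz i]
          exact mul_pos hL' (h01 i).1
        exact_mod_cast this
      have hzL : ∀ i, z i ≤ L := by
        intro i
        have : (z i : ℝ) ≤ (L : ℤ) := by
          rw [← hz i]
          push_cast
          nlinarith [(h01 i).2]
        exact_mod_cast this
      have hr : ∀ i, r i = (((z i).toNat : ℕ) : ℝ) / L := by
        intro i
        have h1 : (((z i).toNat : ℕ) : ℝ) = z i := by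
          have := Int.toNat_of_nonneg (hzpos i).le
          exact_mod_cast this
        rw [h1, ← hz i]
        field_simp
      refine Or.inr ⟨L, fun i => (z i).toNat, hLB, hr, ?_⟩
      rw [← finiteCheck_iff hL]
      · have : (fun i => (((z i).toNat : ℕ) : ℝ) / L) = r := by
          funext i
          exact (hr i).symm
        rw [this]
        exact ha
      · intro i
        have := hzpos i
        omega
      · intro i
        have := hzL i
        omega
  · rintro (hT | ⟨L, p, -, hr, hf⟩)
    · exact Pool.Agent.Helper87.FKF.P1 hT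
    · have hL : 0 < L := by
        rcases Nat.eq_zero_or_pos L with h | h
        · exfalso
          have := (h01 ⟨0, hn⟩).1
          rw [hr, h] at this
          simp at this
        · exact h
      have hL' : (0:ℝ) < L := by exact_mod_cast hL
      have hr' : r = fun i => (p i : ℝ) / L := funext hr
      rw [hr', finiteCheck_iff hL]
      · exact hf
      · intro i
        have := (h01 i).1
        rw [hr i] at this
        by_contra h
        have h0 : p i = 0 := by omega
        rw [h0] at this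
        simp at this
      · intro i
        have := (h01 i).2
        rw [hr i, div_lt_one hL'] at this
        have : p i < L := by exact_mod_cast this
        exact this.le

end Pool.Agent.Helper7.FE
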