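import Pool.Agent.Helper7.FE.Four3

/-!
# The effective classification with the better bound
-/

open Finset

namespace Pool.Agent.Helper7.FE

open Pool.Agent.Helper7.FR Pool.Agent.Helper27.FK

/-- **the effective classification** -/
theorem classification2 {n : ℕ} {r : Fin n → ℝ} (h01 : ∀ i, 0 < r i ∧ r i < 1)
    (hs : ∑ i, r i = 1) :
    Admissible r ↔ TwoLetter r ∨ ∃ (L : ℕ) (p : Fin n → ℕ), L ≤ 2 * (5 * n ^ 2) ^ (2 * n - 2) ∧
      (∀ i, r i = (p i : ℝ) / L) ∧ FiniteCheck L p := by
  have hn : 0 < n := by
    rcases Nat.eq_zero_or_pos n with h | h
    · subst h
      simp at hs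
    · exact h
  constructor
  · intro ha
    by_cases hT : TwoLetter r
    · exact Or.inl hT
    · obtain ⟨L, hL, hLB, hz⟩ := effective2 h01 hs ha hT
      choose z hz using hz
      have hL' : (0:ℝ) < L := by exact_mod_cast hL
      have hzpos : ∀ i, 0 < z i := by
        intro i
        have : (0:ℝ) < z i := by
          rw [← hz i]
          exact mul_pos hL' (h01 i).1
        exact_mod_cast this
      have hzL : ∀ i, z i ≤ L := by
        intro i
        have : (z i : ℝ) ≤ (L : ℤ) := by
          rw [← hz i]
          push_cast
          nlinarith [(h01 i).2]
        exact_mod_cast this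
      have hr : ∀ i, r i = (((z i).toNat : ℕ) : ℝ) / L := by
        intro i
        have h1 : (((z i).toNat : ℕ) : ℝ) = z i := by
          have := Int.toNat_of_nonneg (hzpos i).le
          exact_mod_cast this
        rw [h1, ← hz i]
        field_simp
      refine Or.inr ⟨L, fun i => (z i).toNat, hLB, hr, ?_⟩
      rw [← finiteCheck_iff hL]
      · have : (fun i => (((z i).toNat : ℕ) : ℝ) / L) = r := by
          funext i
          exact (hr i).symm
        rw [this]
        exact ha
      · intro i
        have := hzpos i
        omega
      · intro i
        have := hzL i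
        omega
  · rintro (hT | ⟨L, p, -, hr, hf⟩)
    · exact Pool.Agent.Helper87.FKF.P1 hT
    · have hL : 0 < L := by
        rcases Nat.eq_zero_or_pos L with h | h
        · exfalso
          have := (h01 ⟨0, hn⟩).1
          rw [hr, h] at this
          simp at this
        · exact h
      have hL' : (0:ℝ) < L := by exact_mod_cast hL
      have hr' : r = fun i => (p i : ℝ) / L := funext hr
      rw [hr', finiteCheck_iff hL]
      · exact hf
      · intro i
        have := (h01 i).1
        rw [hr i] at this
        by_contra h
        have h0 : p i = 0 := by omega
        rw [h0] at this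
        simp at this
      · intro i
        have := (h01 i).2
        rw [hr i, div_lt_one hL'] at this
        have : p i < L := by exact_mod_cast this
        exact this.le

end Pool.Agent.Helper7.FE
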