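import Pool.Agent.Helper7.FE.Main
import Pool.Agent.Helper7.FR.Rat

/-!
# Fourier connectivity: every split of the letters carries a small relation
-/

open Finset Complex

namespace Pool.Agent.Helper7.FE

open Pool.Agent.Helper7.FR

/-- the Fourier coefficient of `f` at the frequency `a / L` -/
noncomputable def FC (L : ℕ) (f : ℤ → ℝ) (a : ℕ) : ℂ :=
  per L (fun j => ((f j : ℝ) : ℂ) * ee (-((a:ℝ) / L * j)))

lemma conj_ee (x : ℝ) : (starRingEnd ℂ) (ee x) = ee (-x) := by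
  unfold ee
  rw [← Complex.exp_conj]
  congr 1
  simp only [map_mul, Complex.conj_ofReal, Complex.conj_I]
  have : (starRingEnd ℂ) 2 = 2 := by
    have := Complex.conj_ofReal 2
    push_cast at this
    exact this
  rw [this]
  push_cast
  ring

lemma char_sum {L : ℕ} (hL : 0 < L) {j k : ℕ} (hj : j < L) (hk : k < L) :
    ∑ a ∈ range L, ee (-((a:ℝ) / L * ((j:ℝ) - k))) = if j = k then (L:ℂ) else 0 := by
  have hL' : (L:ℝ) ≠ 0 := by exact_mod_cast hL.ne'
  split_ifs with h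
  · subst h
    simp [ee_zero]
  · have h1 := per_char (L := L) (α := ((j:ℝ) - k) / L) ⟨(j:ℤ) - k, by push_cast; field_simp⟩ (by
      rintro ⟨m, hm⟩
      have h2 : (j:ℝ) - k = L * m := by rw [← hm]; field_simp
      have h3 : (j:ℤ) - k = L * m := by exact_mod_cast h2
      have h4 : (L:ℤ) ∣ (j:ℤ) - k := ⟨m, h3⟩
      have h5 : |(j:ℤ) - k| < L := by rw [abs_lt]; omega
      have h6 := Int.eq_zero_of_abs_lt_dvd h4 h5
      omega)
    unfold per at h1
    rw [← h1]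
    apply Finset.sum_congr rfl
    intro a _
    congr 1
    push_cast
    ring

lemma parseval {L : ℕ} (hL : 0 < L) (f : ℤ → ℝ) :
    ∑ a ∈ range L, ‖FC L f a‖ ^ 2 = L * ∑ j ∈ range L, (f j) ^ 2 := by
  have key : ((∑ a ∈ range L, ‖FC L f a‖ ^ 2 : ℝ) : ℂ) =
      ((L * ∑ j ∈ range L, (f j) ^ 2 : ℝ) : ℂ) := by
    push_cast
    have h1 : ∀ a ∈ range L, (‖FC L f a‖ : ℂ) ^ 2 =
        ∑ j ∈ range L, ∑ k ∈ range L, ((f j : ℝ) : ℂ) * ((f k : ℝ) : ℂ) *
          ee (-((a:ℝ) / L * ((j:ℝ) - k))) := by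
      intro a _
      rw [← Complex.mul_conj']
      unfold FC per
      rw [map_sum, Finset.sum_mul_sum]
      apply Finset.sum_congr rfl
      intro j _
      apply Finset.sum_congr rfl
      intro k _
      rw [map_mul, Complex.conj_ofReal, conj_ee]
      have : ee (-((a:ℝ) / L * ((j:ℝ) - k))) =
          ee (-((a:ℝ) / L * ((j:ℤ):ℝ))) * ee (-(-((a:ℝ) / L * ((k:ℤ):ℝ)))) := by
        rw [← ee_add]
        congr 1
        push_cast
        ring
      rw [this]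
      ring
    rw [Finset.sum_congr rfl h1, Finset.sum_comm]
    have h2 : ∀ j ∈ range L, ∑ a ∈ range L, ∑ k ∈ range L, ((f j : ℝ) : ℂ) * ((f k : ℝ) : ℂ) *
          ee (-((a:ℝ) / L * ((j:ℝ) - k))) = (L:ℂ) * ((f j : ℝ) : ℂ) ^ 2 := by
      intro j hj
      rw [Finset.sum_comm]
      have h3 : ∀ k ∈ range L, ∑ a ∈ range L, ((f j : ℝ) : ℂ) * ((f k : ℝ) : ℂ) *
          ee (-((a:ℝ) / L * ((j:ℝ) - k))) =
          if j = k then (L:ℂ) * ((f j : ℝ) : ℂ) ^ 2 else 0 := by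
        intro k hk
        rw [← Finset.mul_sum, char_sum hL (mem_range.1 hj) (mem_range.1 hk)]
        split_ifs with h
        · subst h; ring
        · ring
      rw [Finset.sum_congr rfl h3, Finset.sum_ite_eq, if_pos hj]
    rw [Finset.sum_congr rfl h2, Finset.mul_sum]
  exact_mod_cast key

lemma per_zero {q L : ℕ} {f : ℤ → ℝ} (hf : ∀ j, f (j + q) = f j) (hL : q ∣ L) {α : ℝ}
    (hα : ∃ m : ℤ, α * L = m) (hα' : ¬ ∃ m : ℤ, α * q = m) :
    per L (fun j => ((f j : ℝ) : ℂ) * ee (-(α * j))) = 0 := by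
  set G : ℤ → ℂ := fun j => ((f j : ℝ) : ℂ) * ee (-(α * j)) with hG
  have hfL : ∀ j, f (j + L) = f j := by
    obtain ⟨m, rfl⟩ := hL
    intro j
    have : ∀ t : ℕ, f (j + (q * t : ℕ)) = f j := by
      intro t
      induction t with
      | zero => simp
      | succ t ih =>
        rw [← ih, ← hf (j + (q * t : ℕ))]
        congr 1
        push_cast
        ring
    exact this m
  have hGper : ∀ j, G (j + L) = G j := by
    intro j
    obtain ⟨m, hm⟩ := hα
    have h2 : ee (-(α * ((j + L : ℤ) : ℝ))) = ee (-(α * (j:ℝ))) := by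
      have : -(α * ((j + L : ℤ) : ℝ)) = -(α * (j:ℝ)) + ((-m : ℤ) : ℝ) := by
        push_cast; rw [← hm]; ring
      rw [this, ee_add_int]
    show ((f (j + L) : ℝ) : ℂ) * ee (-(α * ((j + L : ℤ) : ℝ))) = _
    rw [hfL, h2]
  have hsh := per_shift hGper q
  have e1 : ee (α * q) * per L (fun j => G (j + q)) = per L G := by
    rw [← per_mul_left]
    congr 1
    funext j
    show ee (α * q) * (((f (j + q) : ℝ) : ℂ) * ee (-(α * ((j + q : ℤ) : ℝ)))) =
      ((f j : ℝ) : ℂ) * ee (-(α * j))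
    have : ee (-(α * (j:ℝ))) = ee (α * q) * ee (-(α * ((j + q : ℤ) : ℝ))) := by
      rw [← ee_add]; congr 1; push_cast; ring
    rw [this, hf]
    ring
  rw [hsh] at e1
  have h3 : ee (α * q) ≠ 1 := by
    intro h4
    exact hα' ((ee_eq_one_iff _).1 h4)
  have h5 : (ee (α * q) - 1) * per L G = 0 := by
    rw [sub_mul, one_mul, e1, sub_self]
  rcases mul_eq_zero.1 h5 with h6 | h6
  · exact absurd (sub_eq_zero.1 h6) h3
  · exact h6

lemma abs_sin_ge {q : ℕ} (hq : 0 < q) {x : ℤ} (hx : 2 * |x| ≤ q) :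
    2 * |(x:ℝ)| / q ≤ |Real.sin (Real.pi * ((x:ℝ) / q))| := by
  have hq' : (0:ℝ) < q := by exact_mod_cast hq
  have hx' : 2 * |(x:ℝ)| ≤ q := by exact_mod_cast hx
  have h0 : |Real.sin (Real.pi * ((x:ℝ) / q))| = |Real.sin (Real.pi * (|(x:ℝ)| / q))| := by
    rcases abs_cases (x:ℝ) with ⟨h, _⟩ | ⟨h, _⟩
    · rw [h]
    · rw [h]
      have : Real.pi * (-(x:ℝ) / q) = - (Real.pi * ((x:ℝ) / q)) := by ring
      rw [this, Real.sin_neg, abs_neg]
  rw [h0]
  have h1 : 0 ≤ Real.pi * (|(x:ℝ)| / q) := by positivity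
  have h2 : Real.pi * (|(x:ℝ)| / q) ≤ Real.pi / 2 := by
    have : |(x:ℝ)| / q ≤ 1 / 2 := by
      rw [div_le_div_iff₀ hq' (by norm_num)]
      linarith
    nlinarith [Real.pi_pos]
  have h3 := Real.mul_le_sin h1 h2
  refine le_trans (le_of_eq ?_) (h3.trans (le_abs_self _))
  field_simp

lemma letter {L : ℕ} (hL : 0 < L) {r θ : ℝ} (hr : 0 < r) (hrL : ∃ p : ℤ, (L:ℝ) * r = p)
    {a : ℕ} (ha0 : 0 < a) (haL : a < L) :
    FC L (fun j => Int.fract ((j:ℝ) * r + θ)) a = 0 ∨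
    ∃ x : ℤ, x ≠ 0 ∧ (∃ z : ℤ, x * r - (a:ℝ) / L = z) ∧
      ‖FC L (fun j => Int.fract ((j:ℝ) * r + θ)) a‖ ≤ L / (4 * |(x:ℝ)|) := by
  have hL' : (0:ℝ) < L := by exact_mod_cast hL
  obtain ⟨p, hp⟩ := hrL
  have hp0 : 0 < p := by
    have : (0:ℝ) < p := by rw [← hp]; positivity
    exact_mod_cast this
  lift p to ℕ using hp0.le
  obtain ⟨P, q, hcop, hP, hq⟩ := Nat.exists_coprime p L
  set g := Nat.gcd p L with hg
  have hg0 : 0 < g := Nat.gcd_pos_of_pos_right _ hL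
  have hq0 : 0 < q := by
    rcases Nat.eq_zero_or_pos q with h | h
    · rw [h, zero_mul] at hq; omega
    · exact h
  have hq' : (0:ℝ) < q := by exact_mod_cast hq0
  have hqL : q ∣ L := ⟨g, hq⟩
  have hrPq : r = (P:ℝ) / q := by
    have h1 : (L:ℝ) = q * g := by exact_mod_cast hq
    have h2 : ((p:ℤ):ℝ) = P * g := by push_cast; exact_mod_cast hP
    rw [h1, h2] at hp
    have hg' : (0:ℝ) < g := by exact_mod_cast hg0
    field_simp
    nlinarith
  by_cases hd : ∃ m : ℤ, ((a:ℝ) / L) * q = m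
  · right
    obtain ⟨t, ht⟩ := hd
    have hαt : (a:ℝ) / L = (t:ℝ) / q := by rw [← ht]; field_simp
    have htpos : 0 < t := by
      have : (0:ℝ) < t := by rw [← ht]; positivity
      exact_mod_cast this
    have htq : t < q := by
      have h1 : (t:ℝ) < q := by
        rw [← ht]
        have : (a:ℝ) / L < 1 := by rw [div_lt_one hL']; exact_mod_cast haL
        nlinarith
      exact_mod_cast h1
    have hnd : ¬ (q:ℤ) ∣ t := fun h => by
      have := Int.le_of_dvd htpos h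
      omega
    obtain ⟨u, v, huv⟩ := Nat.isCoprime_iff_coprime.2 hcop
    set x : ℤ := Int.bmod (u * t) q with hx
    have hxq : (q:ℤ) ∣ P * x - t := by
      have h1 : (q:ℤ) ∣ x - u * t := by
        rw [hx]
        exact Int.dvd_bmod_sub_self
      have h2 : (P:ℤ) * x - t = P * (x - u * t) + (P * u - 1) * t := by ring
      rw [h2]
      apply dvd_add (h1.mul_left _)
      refine ⟨-v * t, ?_⟩
      have : (P:ℤ) * u - 1 = - (v * q) := by linarith
      rw [this]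
      ring
    have hx0 : x ≠ 0 := by
      intro h
      rw [h, mul_zero, zero_sub, dvd_neg] at hxq
      exact hnd hxq
    have hxle : 2 * |x| ≤ q := by
      have h1 := Int.le_bmod (x := u * t) (m := q) hq0
      have h2 := Int.bmod_lt (x := u * t) (m := q) hq0
      rw [← hx] at h1 h2
      rcases abs_cases x with ⟨h, _⟩ | ⟨h, _⟩ <;> omega
    refine ⟨x, hx0, ?_, ?_⟩
    · obtain ⟨z, hz⟩ := hxq
      refine ⟨z, ?_⟩
      rw [hαt, hrPq]
      have : (P:ℝ) * x - t = q * z := by exact_mod_cast hz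
      field_simp
      linarith
    · have h1 := per_fract (P := P) (q := q) (L := L) hq0 hcop hqL θ (a := t) (x := x) hxq hnd
      have h2 : FC L (fun j => Int.fract ((j:ℝ) * r + θ)) a = per L (fun j =>
          ((Int.fract ((j:ℝ) * ((P:ℝ) / q) + θ) : ℝ) : ℂ) * ee (-((t:ℝ) / q * j))) := by
        unfold FC
        rw [hαt, hrPq]
      rw [h2]
      have h3 := abs_sin_ge hq0 hxle
      have hxp : (0:ℝ) < |(x:ℝ)| := abs_pos.2 (by exact_mod_cast hx0)
      rw [le_div_iff₀ (by positivity)]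
      set F := ‖per L (fun j =>
          ((Int.fract ((j:ℝ) * ((P:ℝ) / q) + θ) : ℝ) : ℂ) * ee (-((t:ℝ) / q * j)))‖ with hF
      have hF0 : 0 ≤ F := norm_nonneg _
      have h4 : F * (2 * (2 * |(x:ℝ)| / q)) ≤ L / q := by
        rw [← h1]
        apply mul_le_mul_of_nonneg_left _ hF0
        linarith
      have h5 : F * (2 * (2 * |(x:ℝ)| / q)) = F * (4 * |(x:ℝ)|) / q := by ring
      rw [h5] at h4
      exact (div_le_div_iff_of_pos_right hq').1 h4
  · left
    unfold FC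
    apply per_zero (q := q) (L := L) (f := fun j : ℤ => Int.fract ((j:ℝ) * r + θ)) _ hqL
      ⟨a, by push_cast; field_simp⟩ hd
    intro j
    have := fract_periodic (P := P) (q := q) (L := q) hq0 dvd_rfl θ j
    rw [hrPq]
    exact this

lemma tail_aux {K : ℕ} (hK : 0 < K) (T : Finset ℤ) (hT : ∀ x ∈ T, K < x.natAbs)
    (hinj : Set.InjOn Int.natAbs (T : Set ℤ)) : (∑ x ∈ T, 1 / (x:ℝ) ^ 2) ≤ 1 / (K:ℝ) := by
  have h1 : ∑ x ∈ T, 1 / (x:ℝ) ^ 2 = ∑ m ∈ T.image Int.natAbs, ((m:ℝ) ^ 2)⁻¹ := by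
    rw [Finset.sum_image hinj]
    apply Finset.sum_congr rfl
    intro x _
    rw [one_div]
    congr 1
    have : ((x.natAbs : ℕ) : ℝ) = |(x:ℝ)| := by rw [Nat.cast_natAbs, Int.cast_abs]
    rw [this, sq_abs]
  set M := (T.image Int.natAbs).sup id + K with hM
  have h2 : T.image Int.natAbs ⊆ Finset.Ioc K M := by
    intro m hm
    rw [Finset.mem_Ioc]
    constructor
    · obtain ⟨x, hx, rfl⟩ := Finset.mem_image.1 hm
      exact hT x hx
    · have := Finset.le_sup (f := id) hm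
      simp only [id] at this
      omega
  rw [h1]
  have h3 := sum_Ioc_inv_sq_le_sub (α := ℝ) hK.ne' (show K ≤ M by omega)
  have h4 : (0:ℝ) ≤ (M:ℝ)⁻¹ := by positivity
  calc ∑ m ∈ T.image Int.natAbs, ((m:ℝ) ^ 2)⁻¹ ≤ ∑ m ∈ Finset.Ioc K M, ((m:ℝ) ^ 2)⁻¹ :=
        Finset.sum_le_sum_of_subset_of_nonneg h2 fun _ _ _ => by positivity
    _ ≤ (K:ℝ)⁻¹ - (M:ℝ)⁻¹ := h3
    _ ≤ 1 / (K:ℝ) := by rw [one_div]; linarith

lemma tail_sum {K : ℕ} (hK : 0 < K) (S : Finset ℤ) (hS : ∀ x ∈ S, (K:ℤ) < |x|) :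
    (∑ x ∈ S, 1 / (x:ℝ) ^ 2) ≤ 2 / (K:ℝ) := by
  rw [← Finset.sum_filter_add_sum_filter_not S (fun x => 0 < x)]
  have h1 : (∑ x ∈ S.filter (fun x => 0 < x), 1 / (x:ℝ) ^ 2) ≤ 1 / (K:ℝ) := by
    apply tail_aux hK
    · intro x hx
      rw [Finset.mem_filter] at hx
      have := hS x hx.1
      rw [Int.abs_eq_natAbs] at this
      omega
    · intro x hx y hy hxy
      rw [Finset.mem_coe, Finset.mem_filter] at hx hy
      omega
  have h2 : (∑ x ∈ S.filter (fun x => ¬ 0 < x), 1 / (x:ℝ) ^ 2) ≤ 1 / (K:ℝ) := by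
    apply tail_aux hK
    · intro x hx
      rw [Finset.mem_filter] at hx
      have := hS x hx.1
      rw [Int.abs_eq_natAbs] at this
      omega
    · intro x hx y hy hxy
      rw [Finset.mem_coe, Finset.mem_filter] at hx hy
      omega
  have h3 : (2:ℝ) / K = 1 / K + 1 / K := by ring
  rw [h3]
  exact add_le_add h1 h2

/-- `α` is a small multiple of `r` modulo `1` -/
def Small (K : ℕ) (r α : ℝ) : Prop := ∃ k : ℤ, k ≠ 0 ∧ |k| ≤ K ∧ ∃ z : ℤ, k * r - α = z

open Classical in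
lemma tail {L K : ℕ} (hL : 0 < L) (hK : 0 < K) {r θ : ℝ} (hr : 0 < r)
    (hrL : ∃ p : ℤ, (L:ℝ) * r = p) :
    (∑ a ∈ (Finset.Ioo 0 L).filter (fun a : ℕ => ¬ Small K r ((a:ℝ) / L)),
      ‖FC L (fun j => Int.fract ((j:ℝ) * r + θ)) a‖ ^ 2) ≤ (L:ℝ) ^ 2 / (8 * K) := by
  have hL' : (0:ℝ) < L := by exact_mod_cast hL
  have hK' : (0:ℝ) < K := by exact_mod_cast hK
  set F : ℕ → ℂ := fun a => FC L (fun j => Int.fract ((j:ℝ) * r + θ)) a with hF
  set A := (Finset.Ioo 0 L).filter (fun a : ℕ => ¬ Small K r ((a:ℝ) / L)) with hA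
  set B := A.filter (fun a => F a ≠ 0) with hB
  have h1 : ∑ a ∈ A, ‖F a‖ ^ 2 = ∑ a ∈ B, ‖F a‖ ^ 2 := by
    rw [hB, Finset.sum_filter (s := A)]
    apply Finset.sum_congr rfl
    intro a _
    split_ifs with h
    · rfl
    · push Not at h
      rw [h, norm_zero]
      norm_num
  have h2 : ∀ a ∈ B, ∃ x : ℤ, x ≠ 0 ∧ (∃ z : ℤ, x * r - (a:ℝ) / L = z) ∧
      ‖F a‖ ≤ L / (4 * |(x:ℝ)|) := by
    intro a ha
    rw [hB, Finset.mem_filter, hA, Finset.mem_filter, Finset.mem_Ioo] at ha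
    rcases letter hL hr hrL (θ := θ) ha.1.1.1 ha.1.1.2 with h | h
    · exact absurd h ha.2
    · exact h
  choose! x hx0 hxz hxF using h2
  have hxK : ∀ a ∈ B, (K:ℤ) < |x a| := by
    intro a ha
    by_contra hcon
    push Not at hcon
    have hmem := ha
    rw [hB, Finset.mem_filter, hA, Finset.mem_filter] at hmem
    exact hmem.1.2 ⟨x a, hx0 a ha, hcon, hxz a ha⟩
  have hinj : Set.InjOn x (B : Set ℕ) := by
    intro a ha b hb hab
    rw [Finset.mem_coe] at ha hb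
    obtain ⟨z1, hz1⟩ := hxz a ha
    obtain ⟨z2, hz2⟩ := hxz b hb
    rw [hab] at hz1
    have h3 : ((b:ℝ) - a) / L = (z1 - z2 : ℤ) := by
      push_cast
      rw [← hz1, ← hz2]
      ring
    have h4 : (b:ℝ) - a = L * (z1 - z2 : ℤ) := by rw [← h3]; field_simp
    have h5 : (b:ℤ) - a = L * (z1 - z2) := by exact_mod_cast h4
    have ha' := ha
    have hb' := hb
    rw [hB, Finset.mem_filter, hA, Finset.mem_filter, Finset.mem_Ioo] at ha' hb'
    have h6 : |(b:ℤ) - a| < L := by rw [abs_lt]; omega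
    have h7 := Int.eq_zero_of_abs_lt_dvd (⟨_, h5⟩ : (L:ℤ) ∣ (b:ℤ) - a) h6
    omega
  rw [h1]
  calc ∑ a ∈ B, ‖F a‖ ^ 2 ≤ ∑ a ∈ B, (L:ℝ) ^ 2 / 16 * (1 / (x a:ℝ) ^ 2) := by
        apply Finset.sum_le_sum
        intro a ha
        have h3 := hxF a ha
        have h4 : (0:ℝ) < |(x a:ℝ)| := abs_pos.2 (by exact_mod_cast hx0 a ha)
        calc ‖F a‖ ^ 2 ≤ (L / (4 * |(x a:ℝ)|)) ^ 2 := pow_le_pow_left₀ (norm_nonneg _) h3 2
          _ = (L:ℝ) ^ 2 / 16 * (1 / (x a:ℝ) ^ 2) := by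
            rw [div_pow, mul_pow, sq_abs]
            field_simp
            norm_num
    _ = (L:ℝ) ^ 2 / 16 * (∑ y ∈ B.image x, 1 / (y:ℝ) ^ 2) := by
        rw [← Finset.mul_sum, Finset.sum_image hinj]
    _ ≤ (L:ℝ) ^ 2 / 16 * (2 / K) := by
        apply mul_le_mul_of_nonneg_left _ (by positivity)
        apply tail_sum hK
        intro y hy
        obtain ⟨a, ha, rfl⟩ := Finset.mem_image.1 hy
        exact hxK a ha
    _ = (L:ℝ) ^ 2 / (8 * K) := by field_simp; norm_num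

end Pool.Agent.Helper7.FE
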