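import Pool.Agent.Helper7.FE.Four

/-!
# Fourier connectivity, second part
-/

open Finset Complex

namespace Pool.Agent.Helper7.FE

open Pool.Agent.Helper7.FR

lemma FC_sum {ι : Type*} (L : ℕ) (s : Finset ι) (f : ι → ℤ → ℝ) (a : ℕ) :
    FC L (fun j => ∑ i ∈ s, f i j) a = ∑ i ∈ s, FC L (f i) a := by
  unfold FC
  rw [← per_sum]
  congr 1
  funext j
  push_cast
  rw [Finset.sum_mul]

lemma FC_const {L : ℕ} (hL : 0 < L) (c : ℝ) {a : ℕ} (ha0 : 0 < a) (haL : a < L) :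
    FC L (fun _ => c) a = 0 := by
  have hL' : (0:ℝ) < L := by exact_mod_cast hL
  unfold FC
  rw [per_mul_left, per_char, mul_zero]
  · exact ⟨a, by push_cast; field_simp⟩
  · rintro ⟨m, hm⟩
    have h1 : (a:ℝ) = L * m := by rw [← hm]; field_simp
    have h2 : (a:ℤ) = L * m := by exact_mod_cast h1
    have h3 : (L:ℤ) ∣ a := ⟨m, h2⟩
    have h4 := Int.le_of_dvd (by exact_mod_cast ha0) h3
    omega

lemma variance {L : ℕ} (hL : 0 < L) (E : ℤ → ℝ) :
    ∑ a ∈ Finset.Ioo 0 L, ‖FC L E a‖ ^ 2 =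
      L * ∑ j ∈ range L, (E j - (∑ j ∈ range L, E j) / L) ^ 2 := by
  have hL' : (0:ℝ) < L := by exact_mod_cast hL
  set μ := (∑ j ∈ range L, E j) / L with hμ
  rw [← parseval hL (fun j => E j - μ)]
  have h1 : ∀ a ∈ Finset.Ioo 0 L, ‖FC L E a‖ ^ 2 = ‖FC L (fun j => E j - μ) a‖ ^ 2 := by
    intro a ha
    rw [Finset.mem_Ioo] at ha
    have h2 : FC L (fun j => E j - μ) a = FC L E a := by
      have h3 := FC_const hL μ ha.1 ha.2
      unfold FC at h3 ⊢
      have h4 : (fun j : ℤ => ((E j - μ : ℝ) : ℂ) * ee (-((a:ℝ) / L * j))) =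
          fun j : ℤ => ((E j : ℝ) : ℂ) * ee (-((a:ℝ) / L * j)) -
            ((μ : ℝ) : ℂ) * ee (-((a:ℝ) / L * j)) := by
        funext j
        push_cast
        ring
      rw [h4, per_sub, h3, sub_zero]
    rw [h2]
  rw [Finset.sum_congr rfl h1]
  apply Finset.sum_subset
  · intro a ha
    rw [Finset.mem_Ioo] at ha
    exact mem_range.2 ha.2
  · intro a ha hna
    have h0 : a = 0 := by
      by_contra h
      exact hna (Finset.mem_Ioo.2 ⟨Nat.pos_of_ne_zero h, mem_range.1 ha⟩)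
    subst h0
    have h3 : FC L (fun j => E j - μ) 0 = 0 := by
      unfold FC per
      have h4 : ∀ j ∈ range L, ((E (j:ℤ) - μ : ℝ) : ℂ) * ee (-(((0:ℕ):ℝ) / L * ((j:ℤ):ℝ))) =
          ((E (j:ℤ) - μ : ℝ) : ℂ) := by
        intro j _
        simp [ee_zero]
      rw [Finset.sum_congr rfl h4, ← Complex.ofReal_sum, Finset.sum_sub_distrib, hμ]
      simp only [Finset.sum_const, Finset.card_range, nsmul_eq_mul]
      rw [mul_div_cancel₀ _ hL'.ne', sub_self, Complex.ofReal_zero]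
    rw [h3, norm_zero]
    norm_num

lemma var_lower {L : ℕ} {E : ℤ → ℝ} (hE : ∀ j, E (j + L) = E j) {N : ℕ}
    (hN : ∀ j, 1 / 3 ≤ |E (j + N) - E j|) (μ : ℝ) :
    (L:ℝ) / 36 ≤ ∑ j ∈ range L, (E j - μ) ^ 2 := by
  have h1 : ∑ j ∈ range L, (E ((j:ℤ) + N) - μ) ^ 2 = ∑ j ∈ range L, (E (j:ℤ) - μ) ^ 2 := by
    have h2 := per_shift (L := L) (G := fun j => (((E j - μ) ^ 2 : ℝ) : ℂ))
      (fun j => by rw [hE]) N
    unfold per at h2
    rw [← Complex.ofReal_sum, ← Complex.ofReal_sum] at h2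
    exact_mod_cast h2
  have h2 : ∀ j ∈ range L, (1:ℝ) / 9 ≤ 2 * (E ((j:ℤ) + N) - μ) ^ 2 + 2 * (E (j:ℤ) - μ) ^ 2 := by
    intro j _
    have h3 := hN j
    have h4 : (1:ℝ) / 9 ≤ (E ((j:ℤ) + N) - E j) ^ 2 := by
      rw [← sq_abs]
      nlinarith
    nlinarith [sq_nonneg ((E ((j:ℤ) + N) - μ) + (E (j:ℤ) - μ))]
  have h3 := Finset.sum_le_sum h2
  rw [Finset.sum_const, Finset.card_range, nsmul_eq_mul, Finset.sum_add_distrib,
    ← Finset.mul_sum, ← Finset.mul_sum, h1] at h3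
  linarith

lemma third {x : ℝ} (h1 : 1 / 3 ≤ x) (h2 : x ≤ 2 / 3) (z : ℤ) : 1 / 3 ≤ |x - z| := by
  rcases le_or_gt z 0 with h | h
  · have : (z:ℝ) ≤ 0 := by exact_mod_cast h
    exact le_trans (by linarith) (le_abs_self _)
  · have : (1:ℝ) ≤ z := by exact_mod_cast h
    rw [abs_sub_comm]
    exact le_trans (by linarith) (le_abs_self _)

lemma far_aux {ρ : ℝ} (h0 : 0 < ρ) (h1 : ρ ≤ 1 / 2) : ∃ N : ℕ, ∀ z : ℤ, 1 / 3 ≤ |N * ρ - z| := by
  rcases le_or_gt (1 / 3) ρ with h | h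
  · refine ⟨1, fun z => ?_⟩
    rw [Nat.cast_one, one_mul]
    exact third h (by linarith) z
  · refine ⟨⌊1 / (3 * ρ)⌋₊ + 1, fun z => ?_⟩
    have h2 := Nat.lt_floor_add_one (1 / (3 * ρ))
    have h3 := Nat.floor_le (show 0 ≤ 1 / (3 * ρ) by positivity)
    rw [div_lt_iff₀ (by positivity)] at h2
    rw [le_div_iff₀ (by positivity)] at h3
    apply third
    · push_cast
      nlinarith
    · push_cast
      nlinarith

lemma far {ρ : ℝ} (h0 : 0 < ρ) (h1 : ρ < 1) : ∃ N : ℕ, ∀ z : ℤ, 1 / 3 ≤ |N * ρ - z| := by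
  rcases le_or_gt ρ (1 / 2) with h | h
  · exact far_aux h0 h
  · obtain ⟨N, hN⟩ := far_aux (ρ := 1 - ρ) (by linarith) (by linarith)
    refine ⟨N, fun z => ?_⟩
    have h2 := hN (N - z)
    rw [← abs_neg]
    refine h2.trans (le_of_eq ?_)
    congr 1
    push_cast
    ring

/-- **connectivity**: for every split of the letters there is a small relation across it -/
theorem connect {n : ℕ} {r θ : Fin n → ℝ} {c : ℝ} (hr : ∀ i, 0 < r i)
    (hs : ∑ i, r i = 1) (hc : ∀ j : ℤ, ∑ i, Int.fract ((j:ℝ) * r i + θ i) = c)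
    {L : ℕ} (hL : 0 < L) (hrL : ∀ i, ∃ p : ℤ, (L:ℝ) * r i = p)
    (Γ : Finset (Fin n)) (hΓ : Γ.Nonempty) (hΓc : Γᶜ.Nonempty) :
    ∃ i ∈ Γ, ∃ j ∉ Γ, ∃ a b : ℤ, a ≠ 0 ∧ b ≠ 0 ∧ |a| ≤ (5 * n ^ 2 : ℕ) ∧ |b| ≤ (5 * n ^ 2 : ℕ) ∧
      ∃ z : ℤ, a * r i - b * r j = z := by
  classical
  by_contra hcon
  push Not at hcon
  have hL' : (0:ℝ) < L := by exact_mod_cast hL
  have hn : 0 < n := by
    obtain ⟨i, -⟩ := hΓ
    exact lt_of_le_of_lt (Nat.zero_le _) i.2
  have hn' : (0:ℝ) < n := by exact_mod_cast hn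
  set K : ℕ := 5 * n ^ 2 with hK
  have hK0 : 0 < K := by positivity
  have hK' : (0:ℝ) < K := by exact_mod_cast hK0
  set f : Fin n → ℤ → ℝ := fun i j => Int.fract ((j:ℝ) * r i + θ i) with hf
  set E : ℤ → ℝ := fun j => ∑ i ∈ Γ, f i j with hE
  set t : Fin n → ℕ → ℝ := fun i a => if Small K (r i) ((a:ℝ) / L) then 0 else ‖FC L (f i) a‖
    with ht
  have ht0 : ∀ i a, 0 ≤ t i a := by
    intro i a
    rw [ht]
    simp only
    split_ifs
    · exact le_refl _
    · exact norm_nonneg _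
  -- the pointwise bound
  have hpt : ∀ a ∈ Finset.Ioo 0 L, ‖FC L E a‖ ≤ ∑ i, t i a := by
    intro a ha
    rw [Finset.mem_Ioo] at ha
    have h1 : ∑ i, FC L (f i) a = 0 := by
      rw [← FC_sum]
      have : (fun j : ℤ => ∑ i, f i j) = fun _ => c := by
        funext j
        exact hc j
      rw [this]
      exact FC_const hL c ha.1 ha.2
    have h2 : FC L E a = ∑ i ∈ Γ, FC L (f i) a := FC_sum L Γ f a
    have h3 : ∑ i ∈ Γ, FC L (f i) a = - ∑ i ∈ Γᶜ, FC L (f i) a := by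
      rw [← Finset.sum_add_sum_compl Γ] at h1
      linear_combination h1
    have key : ∀ X : Finset (Fin n), (∀ i ∈ X, ¬ Small K (r i) ((a:ℝ) / L)) →
        ‖∑ i ∈ X, FC L (f i) a‖ ≤ ∑ i, t i a := by
      intro X hX
      refine (norm_sum_le _ _).trans ?_
      calc ∑ i ∈ X, ‖FC L (f i) a‖ = ∑ i ∈ X, t i a := by
            apply Finset.sum_congr rfl
            intro i hi
            rw [ht]
            simp only
            rw [if_neg (hX i hi)]
        _ ≤ ∑ i, t i a := Finset.sum_le_sum_of_subset_of_nonneg (Finset.subset_univ _)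
            fun i _ _ => ht0 i a
    by_cases hS : ∃ i ∈ Γ, Small K (r i) ((a:ℝ) / L)
    · obtain ⟨i, hi, k, hk0, hkK, z, hz⟩ := hS
      rw [h2, h3, norm_neg]
      apply key
      intro j hj hSj
      obtain ⟨l, hl0, hlK, w, hw⟩ := hSj
      refine hcon i hi j (Finset.mem_compl.1 hj) k l hk0 hl0 hkK hlK (z - w) ?_
      push_cast
      rw [← hz, ← hw]
      ring
    · push Not at hS
      rw [h2]
      exact key Γ hS
  -- the upper bound for the variance
  have hup : ∑ a ∈ Finset.Ioo 0 L, ‖FC L E a‖ ^ 2 ≤ n * (n * ((L:ℝ) ^ 2 / (8 * K))) := by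
    calc ∑ a ∈ Finset.Ioo 0 L, ‖FC L E a‖ ^ 2
        ≤ ∑ a ∈ Finset.Ioo 0 L, (n:ℝ) * ∑ i, (t i a) ^ 2 := by
          apply Finset.sum_le_sum
          intro a ha
          refine (pow_le_pow_left₀ (norm_nonneg _) (hpt a ha) 2).trans ?_
          have := sq_sum_le_card_mul_sum_sq (s := (Finset.univ : Finset (Fin n)))
            (f := fun i => t i a)
          rw [Finset.card_univ, Fintype.card_fin] at this
          exact this
      _ = (n:ℝ) * ∑ i, ∑ a ∈ Finset.Ioo 0 L, (t i a) ^ 2 := by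
          rw [← Finset.mul_sum, Finset.sum_comm]
      _ ≤ (n:ℝ) * ∑ i : Fin n, (L:ℝ) ^ 2 / (8 * K) := by
          apply mul_le_mul_of_nonneg_left _ hn'.le
          apply Finset.sum_le_sum
          intro i _
          refine le_trans (le_of_eq ?_) (tail hL hK0 (hr i) (hrL i) (θ := θ i))
          rw [Finset.sum_filter]
          apply Finset.sum_congr rfl
          intro a _
          rw [ht]
          simp only
          by_cases h : Small K (r i) ((a:ℝ) / L)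
          · rw [if_pos h, if_neg (not_not.2 h)]
            norm_num
          · rw [if_neg h, if_pos h]
      _ = n * (n * ((L:ℝ) ^ 2 / (8 * K))) := by
          rw [Finset.sum_const, Finset.card_univ, Fintype.card_fin, nsmul_eq_mul]
  -- the lower bound
  have hρ0 : 0 < ∑ i ∈ Γ, r i := Finset.sum_pos (fun i _ => hr i) hΓ
  have hρ1 : ∑ i ∈ Γ, r i < 1 := by
    have h1 : 0 < ∑ i ∈ Γᶜ, r i := Finset.sum_pos (fun i _ => hr i) hΓc
    have h2 := Finset.sum_add_sum_compl Γ r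
    linarith
  obtain ⟨N, hN⟩ := far hρ0 hρ1
  have hEper : ∀ j, E (j + L) = E j := by
    intro j
    rw [hE]
    simp only
    apply Finset.sum_congr rfl
    intro i _
    rw [hf]
    simp only
    obtain ⟨p, hp⟩ := hrL i
    have : ((j + L : ℤ) : ℝ) * r i + θ i = ((j:ℝ) * r i + θ i) + (p:ℝ) := by
      rw [← hp]
      push_cast
      ring
    rw [this, Int.fract_add_intCast]
  have hlow := var_lower (L := L) hEper (N := N) (by
    intro j
    have h1 : E (j + N) - E j = N * (∑ i ∈ Γ, r i) -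
        ((∑ i ∈ Γ, (⌊((j + N : ℤ) : ℝ) * r i + θ i⌋ - ⌊(j:ℝ) * r i + θ i⌋) : ℤ) : ℝ) := by
      rw [hE]
      simp only
      rw [← Finset.sum_sub_distrib, Finset.mul_sum]
      push_cast
      rw [← Finset.sum_sub_distrib]
      apply Finset.sum_congr rfl
      intro i _
      rw [hf]
      simp only
      unfold Int.fract
      push_cast
      ring
    rw [h1]
    exact hN _) ((∑ j ∈ range L, E j) / L)
  rw [variance hL E] at hup
  have h1 : (L:ℝ) * (L / 36) ≤ n * (n * ((L:ℝ) ^ 2 / (8 * K))) :=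
    le_trans (mul_le_mul_of_nonneg_left hlow hL'.le) hup
  have h2 : (K:ℝ) = 5 * n ^ 2 := by rw [hK]; push_cast; ring
  rw [h2] at h1
  have h3 : (n:ℝ) * (n * ((L:ℝ) ^ 2 / (8 * (5 * n ^ 2)))) = L ^ 2 / 40 := by
    field_simp
    norm_num
  rw [h3] at h1
  have h4 : 0 < (L:ℝ) ^ 2 := by positivity
  nlinarith

end Pool.Agent.Helper7.FE
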