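import Pool.Agent.Helper7.FE.Four2
import Pool.Agent.Helper7.FE.Fin

/-!
# The effective theorem with the bound `2 (5 n ^ 2) ^ (2 n - 2)`
-/

open Finset

namespace Pool.Agent.Helper7.FE

open Pool.Agent.Helper7.FR Pool.Agent.Helper27.FK

lemma grow2 {n : ℕ} {r : Fin n → ℝ} {K : ℕ} (hK : 1 ≤ K)
    (hconn : ∀ Γ : Finset (Fin n), Γ.Nonempty → Γᶜ.Nonempty → ∃ i ∈ Γ, ∃ j ∉ Γ,
      ∃ a b : ℤ, a ≠ 0 ∧ b ≠ 0 ∧ |a| ≤ K ∧ |b| ≤ K ∧ ∃ z : ℤ, a * r i - b * r j = z)
    (m : ℕ) (hm1 : 1 ≤ m) (hm : m ≤ n) :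
    ∃ S : Finset (Fin n), S.card = m ∧ ∃ b : Fin n → ℤ,
      (∀ i ∈ S, b i ≠ 0 ∧ |b i| ≤ (K:ℤ) ^ (m - 1)) ∧
      ∀ i ∈ S, ∀ l ∈ S, ∃ z : ℤ, b l * r i - b i * r l = z := by
  classical
  induction m, hm1 using Nat.le_induction with
  | base =>
    refine ⟨{⟨0, by omega⟩}, by simp, fun _ => 1, ?_, ?_⟩
    · intro i _
      simp
    · intro i hi l hl
      rw [Finset.mem_singleton] at hi hl
      subst hi
      subst hl
      exact ⟨0, by simp⟩
  | succ m hm1 ih =>
    obtain ⟨S, hcard, b, hb, hrel⟩ := ih (by omega)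
    have hSn : S.Nonempty := by
      rw [← Finset.card_pos]
      omega
    have hSc : Sᶜ.Nonempty := by
      rw [← Finset.card_pos, Finset.card_compl, Fintype.card_fin]
      omega
    obtain ⟨j, hj, w, hw, a, e, ha, he, haK, heK, z, hz⟩ := hconn S hSn hSc
    -- `a * r j - e * r w = z`
    have hK0 : (0:ℤ) ≤ K := by positivity
    have hpow : (K:ℤ) ^ (m + 1 - 1) = K * (K:ℤ) ^ (m - 1) := by
      rw [← pow_succ']
      congr 1
      omega
    refine ⟨insert w S, by rw [Finset.card_insert_of_notMem hw, hcard],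
      fun i => if i = w then a * b j else e * b i, ?_, ?_⟩
    · intro i hi
      rw [Finset.mem_insert] at hi
      rcases hi with rfl | hi
      · simp only [if_true]
        refine ⟨mul_ne_zero ha (hb j hj).1, ?_⟩
        rw [abs_mul, hpow]
        exact mul_le_mul haK (hb j hj).2 (abs_nonneg _) hK0
      · have hiw : i ≠ w := fun h => hw (h ▸ hi)
        simp only [if_neg hiw]
        refine ⟨mul_ne_zero he (hb i hi).1, ?_⟩
        rw [abs_mul, hpow]
        exact mul_le_mul heK (hb i hi).2 (abs_nonneg _) hK0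
    · have hnew : ∀ i ∈ S, ∃ z' : ℤ, ((a * b j : ℤ) : ℝ) * r i - ((e * b i : ℤ) : ℝ) * r w = z' := by
        intro i hi
        obtain ⟨y, hy⟩ := hrel i hi j hj
        -- b j * r i - b i * r j = y
        refine ⟨a * y + b i * z, ?_⟩
        push_cast
        rw [← hy, ← hz]
        ring
      intro i hi l hl
      rw [Finset.mem_insert] at hi hl
      rcases hi with rfl | hi
      · rcases hl with rfl | hl
        · exact ⟨0, by simp⟩
        · have hlw : l ≠ i := fun h => hw (h ▸ hl)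
          obtain ⟨z', hz'⟩ := hnew l hl
          refine ⟨-z', ?_⟩
          simp only [if_true, if_neg hlw]
          push_cast at hz' ⊢
          linarith
      · have hiw : i ≠ w := fun h => hw (h ▸ hi)
        rcases hl with rfl | hl
        · obtain ⟨z', hz'⟩ := hnew i hi
          refine ⟨z', ?_⟩
          simp only [if_true, if_neg hiw]
          exact hz'
        · have hlw : l ≠ w := fun h => hw (h ▸ hl)
          obtain ⟨y, hy⟩ := hrel i hi l hl
          refine ⟨e * y, ?_⟩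
          simp only [if_neg hiw, if_neg hlw]
          push_cast
          rw [← hy]
          ring

lemma minden {n : ℕ} {r : Fin n → ℝ} (hr : ∀ i, 0 < r i) (hs : ∑ i, r i = 1)
    {L : ℕ} (hL : 0 < L) (hrL : ∀ i, ∃ p : ℤ, (L:ℝ) * r i = p) :
    ∃ L' : ℕ, 0 < L' ∧ (∀ i, ∃ z : ℤ, (L':ℝ) * r i = z) ∧
      ∃ x : Fin n → ℤ, ∑ i, x i * r i = 1 / (L':ℝ) := by
  classical
  have hL' : (0:ℝ) < L := by exact_mod_cast hL
  choose p hp using hrL
  have hpsum : ∑ i, p i = L := by
    have : ((∑ i, p i : ℤ) : ℝ) = ((L:ℤ):ℝ) := by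
      push_cast
      rw [Finset.sum_congr rfl fun i _ => (hp i).symm, ← Finset.mul_sum, hs, mul_one]
    exact_mod_cast this
  set d := Finset.univ.gcd p with hd
  obtain ⟨x, hx⟩ := Finset.gcd_eq_sum_mul Finset.univ p
  rw [← hd] at hx
  have hdL : d ∣ L := by
    rw [← hpsum]
    exact Finset.dvd_sum fun i hi => Finset.gcd_dvd hi
  have hd0 : 0 ≤ d := Int.nonneg_of_normalize_eq_self (Finset.normalize_gcd)
  have hdpos : 0 < d := by
    rcases hd0.lt_or_eq with h | h
    · exact h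
    · rw [← h] at hdL
      have := zero_dvd_iff.1 hdL
      omega
  clear_value d
  lift d to ℕ using hd0
  obtain ⟨L', hLL⟩ := (by exact_mod_cast hdL : d ∣ L)
  have hL'0 : 0 < L' := by
    rcases Nat.eq_zero_or_pos L' with h | h
    · rw [h, mul_zero] at hLL; omega
    · exact h
  have hd' : (0:ℝ) < d := by exact_mod_cast hdpos
  have hLr : (L:ℝ) = d * L' := by exact_mod_cast hLL
  have hL'' : (0:ℝ) < L' := by exact_mod_cast hL'0
  refine ⟨L', hL'0, ?_, x, ?_⟩
  · intro i
    obtain ⟨w, hw⟩ : (d:ℤ) ∣ p i := by rw [hd]; exact Finset.gcd_dvd (Finset.mem_univ i)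
    refine ⟨w, ?_⟩
    have h1 := hp i
    rw [hLr, hw] at h1
    push_cast at h1
    have h2 : (d:ℝ) * (L' * r i - w) = 0 := by linarith
    rcases mul_eq_zero.1 h2 with h | h
    · exact absurd h hd'.ne'
    · linarith
  · have h1 : ((∑ i, p i * x i : ℤ) : ℝ) = d := by rw [← hx]; push_cast; rfl
    rw [eq_div_iff hL''.ne']
    have h2 : ((∑ i, x i * r i) * (L':ℝ)) * d = d := by
      rw [mul_assoc, mul_comm (L':ℝ) d, ← hLr, Finset.sum_mul, ← h1]
      push_cast
      apply Finset.sum_congr rfl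
      intro i _
      rw [← hp i]
      ring
    have h3 : (((∑ i, x i * r i) * (L':ℝ)) - 1) * d = 0 := by rw [sub_mul, h2]; ring
    rcases mul_eq_zero.1 h3 with h | h
    · linarith
    · exact absurd h hd'.ne'

/-- rational tuples -/
theorem small_aux {n : ℕ} {r θ : Fin n → ℝ} {c : ℝ} (hn : 2 ≤ n) (hr : ∀ i, 0 < r i)
    (hs : ∑ i, r i = 1) (hc : ∀ j : ℤ, ∑ i, Int.fract ((j:ℝ) * r i + θ i) = c)
    {L : ℕ} (hL : 0 < L) (hrL : ∀ i, ∃ p : ℤ, (L:ℝ) * r i = p) (hT : ¬ TwoLetter r) :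
    ∃ L' : ℕ, 0 < L' ∧ L' ≤ 2 * (5 * n ^ 2) ^ (2 * n - 2) ∧ ∀ i, ∃ z : ℤ, (L':ℝ) * r i = z := by
  classical
  obtain ⟨L', hL'0, hL'z, x, hx⟩ := minden hr hs hL hrL
  refine ⟨L', hL'0, ?_, hL'z⟩
  by_contra hcon
  push Not at hcon
  set K : ℕ := 5 * n ^ 2 with hK
  have hKn : n ≤ K := by nlinarith
  have hK1 : 1 ≤ K := by omega
  obtain ⟨S, hcard, b, hb, hrel⟩ := grow2 hK1
    (fun Γ h1 h2 => connect hr hs hc hL hrL Γ h1 h2) n (by omega) (le_refl n)
  have hSu : S = Finset.univ := by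
    rw [← Finset.card_eq_iff_eq_univ, hcard, Fintype.card_fin]
  subst hSu
  replace hb := fun i => hb i (Finset.mem_univ i)
  have hrel' : ∀ i l, ∃ z : ℤ, b l * r i - b i * r l = z :=
    fun i l => hrel i (Finset.mem_univ i) l (Finset.mem_univ l)
  choose z hz using hrel'
  set B : ℕ := K ^ (n - 1) with hB
  have hBb : ∀ i, |(b i : ℝ)| ≤ B := by
    intro i
    have := (hb i).2
    have h1 : ((|b i| : ℤ) : ℝ) ≤ (((K:ℤ) ^ (n - 1) : ℤ) : ℝ) := by exact_mod_cast this
    rw [Int.cast_abs] at h1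
    refine h1.trans (le_of_eq ?_)
    rw [hB]
    push_cast
    rfl
  have hBB : K ^ (2 * n - 2) = B * B := by
    rw [hB, ← pow_add]
    congr 1
    omega
  have hnB : n ≤ B := by
    rw [hB]
    calc n ≤ K ^ 1 := by rw [pow_one]; exact hKn
      _ ≤ K ^ (n - 1) := Nat.pow_le_pow_right hK1 (by omega)
  rw [hBB] at hcon
  have hL'' : (0:ℝ) < L' := by exact_mod_cast hL'0
  have hcon' : 2 * ((B:ℝ) * B) < L' := by exact_mod_cast hcon
  have hnB' : (n:ℝ) ≤ B := by exact_mod_cast hnB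
  have hn' : (0:ℝ) < n := by
    have : 0 < n := by omega
    exact_mod_cast this
  have hB' : (0:ℝ) < B := lt_of_lt_of_le hn' hnB'
  set N : ℤ := ∑ l, x l * b l with hN
  set Z : Fin n → ℤ := fun i => ∑ l, x l * z i l with hZ
  have hv : ∀ i, (N:ℝ) * r i - Z i = b i / L' := by
    intro i
    rw [hN, hZ]
    push_cast
    rw [Finset.sum_mul, ← Finset.sum_sub_distrib]
    have h1 : ∀ l ∈ (Finset.univ : Finset (Fin n)),
        (x l : ℝ) * b l * r i - x l * z i l = b i * (x l * r l) := by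
      intro l _
      rw [← hz i l]
      ring
    rw [Finset.sum_congr rfl h1, ← Finset.mul_sum, hx]
    ring
  have hsmall : ∑ i, |(b i : ℝ) / L'| ≤ 1 / 2 := by
    calc ∑ i, |(b i : ℝ) / L'| ≤ ∑ i : Fin n, (B:ℝ) / L' := by
          apply Finset.sum_le_sum
          intro i _
          rw [abs_div, abs_of_pos hL'']
          exact div_le_div_of_nonneg_right (hBb i) hL''.le
      _ = n * B / L' := by
          rw [Finset.sum_const, Finset.card_univ, Fintype.card_fin, nsmul_eq_mul]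
          ring
      _ ≤ 1 / 2 := by
          rw [div_le_div_iff₀ hL'' (by norm_num)]
          nlinarith
  have i₀ : Fin n := ⟨0, by omega⟩
  by_cases h1 : ∀ i, -(r i) ≤ (b i : ℝ) / L'
  · apply hT
    apply twoLetter_of_small hr hs hc N Z
    · intro i
      rw [hv]
      exact h1 i
    · simp only [hv]
      exact hsmall
    · refine ⟨i₀, ?_⟩
      rw [hv]
      exact div_ne_zero (by exact_mod_cast (hb i₀).1) hL''.ne'
  · by_cases h2 : ∀ i, -(r i) ≤ -((b i : ℝ) / L')
    · apply hT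
      have hv' : ∀ i, ((-N : ℤ) : ℝ) * r i - ((-Z i : ℤ) : ℝ) = -((b i : ℝ) / L') := by
        intro i
        rw [← hv]
        push_cast
        ring
      apply twoLetter_of_small hr hs hc (-N) (fun i => -Z i)
      · intro i
        rw [hv']
        exact h2 i
      · simp only [hv', abs_neg]
        exact hsmall
      · refine ⟨i₀, ?_⟩
        rw [hv']
        exact neg_ne_zero.2 (div_ne_zero (by exact_mod_cast (hb i₀).1) hL''.ne')
    · push Not at h1 h2
      obtain ⟨i, hi⟩ := h1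
      obtain ⟨l, hl⟩ := h2
      have e1 : r i * L' < -(b i : ℝ) := by
        rw [div_lt_iff₀ hL''] at hi
        linarith
      have e2 : r l * L' < (b l : ℝ) := by
        have : r l < (b l : ℝ) / L' := by linarith
        rwa [lt_div_iff₀ hL''] at this
      have e3 : 0 < -(b i : ℝ) := lt_trans (mul_pos (hr i) hL'') e1
      have e4 : 0 < (b l : ℝ) := lt_trans (mul_pos (hr l) hL'') e2
      have e5 := hz i l
      have e6 : 0 < (z i l : ℝ) := by
        rw [← e5]
        have := mul_pos e4 (hr i)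
        have := mul_pos e3 (hr l)
        linarith
      have e7 : (1:ℝ) ≤ z i l := by
        have : 0 < z i l := by exact_mod_cast e6
        exact_mod_cast this
      have e8 : (z i l : ℝ) * L' < 2 * (-(b i : ℝ) * b l) := by
        rw [← e5]
        nlinarith
      have e9 : -(b i : ℝ) * b l ≤ B * B := by
        have h5 : -(b i : ℝ) ≤ B := (neg_le_abs _).trans (hBb i)
        have h6 : (b l : ℝ) ≤ B := (le_abs_self _).trans (hBb l)
        exact mul_le_mul h5 h6 e4.le hB'.le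
      nlinarith

/-- **the effective theorem** with the better bound -/
theorem effective2 {n : ℕ} {r : Fin n → ℝ} (h01 : ∀ i, 0 < r i ∧ r i < 1)
    (hs : ∑ i, r i = 1) (ha : Admissible r) (hT : ¬ TwoLetter r) :
    ∃ L : ℕ, 0 < L ∧ L ≤ 2 * (5 * n ^ 2) ^ (2 * n - 2) ∧ ∀ i, ∃ z : ℤ, (L:ℝ) * r i = z := by
  have hn : 2 ≤ n := by
    by_contra h
    push Not at h
    interval_cases n
    · simp at hs
    · have := (h01 0).2
      simp at hs
      linarith
  obtain ⟨L, hL, -, hz⟩ := effective h01 hs ha hT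
  obtain ⟨θ, -, hcov⟩ := ha
  obtain ⟨c, hc⟩ := sum_fract_const (fun i => (h01 i).1) (fun i => (h01 i).2) hs hcov
  exact small_aux hn (fun i => (h01 i).1) hs hc hL hz hT

end Pool.Agent.Helper7.FE
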