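import Mathlib

/-!
# The key lemma, part 1: the two-dimensional array of floors and its events

`F i f t = ⌊θ i + f r i + t v i⌋` on `ℤ × ℤ` with `∑ i, F i f t = f + C`.
-/

open Finset

namespace Pool.Agent.Helper7.FE

/-- the data of the key lemma -/
structure KD (ι : Type*) [Fintype ι] where
  r : ι → ℝ
  θ : ι → ℝ
  v : ι → ℝ
  C : ℤ
  hr : ∀ i, 0 < r i
  hs : ∑ i, r i = 1
  hv : ∀ i, -(r i) ≤ v i
  hvs : ∑ i, |v i| ≤ 1 / 2
  hv1 : ∑ i, v i = 0
  hv0 : ∃ i, v i ≠ 0
  H : ∀ f t : ℤ, ∑ i, ⌊θ i + f * r i + t * v i⌋ = f + C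

namespace KD

variable {ι : Type*} [Fintype ι] (D : KD ι)

/-- the array of floors -/
noncomputable def F (i : ι) (f t : ℤ) : ℤ := ⌊D.θ i + f * D.r i + t * D.v i⌋

lemma F_mono_f (i : ι) (f t : ℤ) : D.F i f t ≤ D.F i (f + 1) t := by
  unfold F
  apply Int.floor_le_floor
  push_cast
  have := D.hr i
  nlinarith

lemma F_mono_t {i : ι} (hi : 0 < D.v i) (f : ℤ) {t t' : ℤ} (h : t ≤ t') :
    D.F i f t ≤ D.F i f t' := by
  unfold F
  apply Int.floor_le_floor
  have : (t:ℝ) ≤ t' := by exact_mod_cast h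
  have := mul_le_mul_of_nonneg_right this hi.le
  linarith

lemma F_anti_t {i : ι} (hi : D.v i < 0) (f : ℤ) {t t' : ℤ} (h : t ≤ t') :
    D.F i f t' ≤ D.F i f t := by
  unfold F
  apply Int.floor_le_floor
  have : (t:ℝ) ≤ t' := by exact_mod_cast h
  have := mul_le_mul_of_nonpos_right this hi.le
  linarith

lemma F_drop (i : ι) (_hi : D.v i < 0) (f t : ℤ) : D.F i f (t - 1) ≤ D.F i (f + 1) t := by
  unfold F
  apply Int.floor_le_floor
  push_cast
  have := D.hv i
  linarith

lemma sum_F (f t : ℤ) : ∑ i, D.F i f t = f + D.C := D.H f t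

lemma sum_G (f t : ℤ) : ∑ i, (D.F i (f + 1) t - D.F i f t) = 1 := by
  rw [Finset.sum_sub_distrib, D.sum_F, D.sum_F]
  ring

lemma unique_G {i j : ι} {f t : ℤ} (hi : D.F i f t < D.F i (f + 1) t)
    (hj : D.F j f t < D.F j (f + 1) t) : i = j := by
  classical
  by_contra hij
  have h1 := D.sum_G f t
  have h2 : ∑ k ∈ ({i, j} : Finset ι), (D.F k (f + 1) t - D.F k f t) ≤
      ∑ k, (D.F k (f + 1) t - D.F k f t) := by
    apply Finset.sum_le_sum_of_subset_of_nonneg (Finset.subset_univ _)
    intro k _ _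
    have := D.F_mono_f k f t
    omega
  rw [Finset.sum_pair hij] at h2
  omega

lemma G_le_one (i : ι) (f t : ℤ) : D.F i (f + 1) t ≤ D.F i f t + 1 := by
  classical
  have h1 := D.sum_G f t
  have h2 : ∑ k ∈ ({i} : Finset ι), (D.F k (f + 1) t - D.F k f t) ≤
      ∑ k, (D.F k (f + 1) t - D.F k f t) := by
    apply Finset.sum_le_sum_of_subset_of_nonneg (Finset.subset_univ _)
    intro k _ _
    have := D.F_mono_f k f t
    omega
  rw [Finset.sum_singleton] at h2
  omega

/-- time of the event `(i, z)` of a positive letter -/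
noncomputable def T (i : ι) (z f : ℤ) : ℤ := ⌈(z - D.θ i - f * D.r i) / D.v i⌉

/-- time of the event `(i, z)` of a negative letter (the last time at which `F ≥ z`) -/
noncomputable def U (i : ι) (z f : ℤ) : ℤ := ⌊(z - D.θ i - f * D.r i) / D.v i⌋

lemma T_le {i : ι} (hi : 0 < D.v i) (z f t : ℤ) : D.T i z f ≤ t ↔ z ≤ D.F i f t := by
  unfold T F
  rw [Int.ceil_le, Int.le_floor, div_le_iff₀ hi]
  constructor <;> intro h <;> linarith

lemma le_U {i : ι} (hi : D.v i < 0) (z f t : ℤ) : t ≤ D.U i z f ↔ z ≤ D.F i f t := by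
  unfold U F
  rw [Int.le_floor, Int.le_floor, le_div_iff_of_neg hi]
  constructor <;> intro h <;> linarith

lemma exists_neg : ∃ i, D.v i < 0 := by
  by_contra h
  push Not at h
  obtain ⟨i, hi⟩ := D.hv0
  have h1 := (Finset.sum_eq_zero_iff_of_nonneg fun i _ => h i).1 D.hv1
  exact hi (h1 i (Finset.mem_univ i))

lemma exists_pos : ∃ i, 0 < D.v i := by
  by_contra h
  push Not at h
  obtain ⟨i, hi⟩ := D.hv0
  have h1 := (Finset.sum_eq_zero_iff_of_nonpos fun i _ => h i).1 D.hv1
  exact hi (h1 i (Finset.mem_univ i))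

/-- there is no letter with `v i = 0` -/
lemma ne_zero (i : ι) : D.v i ≠ 0 := by
  intro hi
  obtain ⟨l, hl⟩ := D.exists_neg
  -- a step of the zero letter
  have h1 : ∃ f : ℤ, D.F i f 0 < D.F i (f + 1) 0 := by
    by_contra hcon
    push Not at hcon
    have h2 : ∀ k : ℕ, D.F i k 0 ≤ D.F i 0 0 := by
      intro k
      induction k with
      | zero => exact le_refl _
      | succ k ih =>
        push_cast
        exact (hcon k).trans ih
    obtain ⟨k, hk⟩ := exists_nat_gt ((D.F i 0 0 + 1 - D.θ i) / D.r i)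
    have h3 := h2 k
    rw [div_lt_iff₀ (D.hr i)] at hk
    have h4 : D.F i 0 0 + 1 ≤ D.F i k 0 := by
      have : ((D.F i 0 0 + 1 : ℤ) : ℝ) ≤ D.θ i + ((k : ℤ) : ℝ) * D.r i + ((0 : ℤ) : ℝ) * D.v i := by
        push_cast
        linarith
      exact Int.le_floor.2 this
    omega
  obtain ⟨f, hf⟩ := h1
  have hz : ∀ g t : ℤ, D.F i g t = D.F i g 0 := by
    intro g t
    unfold F
    rw [hi]
    simp
  -- a drop of the negative letter
  have h5 : D.F l f (D.U l 0 f) > D.F l f (D.U l 0 f + 1) := by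
    have a1 := (D.le_U hl 0 f (D.U l 0 f)).1 (le_refl _)
    have a2 : ¬ (0 ≤ D.F l f (D.U l 0 f + 1)) := by
      rw [← D.le_U hl 0 f]
      omega
    omega
  have h6 := D.F_drop l hl f (D.U l 0 f + 1)
  rw [add_sub_cancel_right] at h6
  have h7 : D.F i f (D.U l 0 f + 1) < D.F i (f + 1) (D.U l 0 f + 1) := by
    rw [hz f, hz (f + 1)]
    exact hf
  have h8 := D.unique_G h7 (j := l) (by omega)
  rw [h8] at hi
  rw [hi] at hl
  exact lt_irrefl _ hl

lemma neg_of_not_pos {i : ι} (hi : ¬ 0 < D.v i) : D.v i < 0 :=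
  lt_of_le_of_ne (not_lt.1 hi) (D.ne_zero i)

open Classical in
/-- sum over the positive letters -/
noncomputable def P (f t : ℤ) : ℤ := ∑ i ∈ Finset.univ.filter (fun i => 0 < D.v i), D.F i f t

open Classical in
/-- sum over the negative letters -/
noncomputable def M (f t : ℤ) : ℤ := ∑ i ∈ Finset.univ.filter (fun i => ¬ 0 < D.v i), D.F i f t

lemma P_add_M (f t : ℤ) : D.P f t + D.M f t = f + D.C := by
  classical
  unfold P M
  rw [Finset.sum_filter_add_sum_filter_not, D.sum_F]

lemma P_mono_f (f t : ℤ) : D.P f t ≤ D.P (f + 1) t :=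
  Finset.sum_le_sum fun i _ => D.F_mono_f i f t

lemma M_mono_f (f t : ℤ) : D.M f t ≤ D.M (f + 1) t :=
  Finset.sum_le_sum fun i _ => D.F_mono_f i f t

lemma P_mono_t (f : ℤ) {t t' : ℤ} (h : t ≤ t') : D.P f t ≤ D.P f t' := by
  classical
  exact Finset.sum_le_sum fun i hi => D.F_mono_t (Finset.mem_filter.1 hi).2 f h

lemma M_anti_t (f : ℤ) {t t' : ℤ} (h : t ≤ t') : D.M f t' ≤ D.M f t := by
  classical
  exact Finset.sum_le_sum fun i hi =>
    D.F_anti_t (D.neg_of_not_pos (Finset.mem_filter.1 hi).2) f h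

lemma M_drop (f t : ℤ) : D.M f (t - 1) ≤ D.M (f + 1) t := by
  classical
  exact Finset.sum_le_sum fun i hi =>
    D.F_drop i (D.neg_of_not_pos (Finset.mem_filter.1 hi).2) f t

lemma P_lt {i : ι} (hi : 0 < D.v i) {f t f' t' : ℤ}
    (h : ∀ j, 0 < D.v j → D.F j f t ≤ D.F j f' t') (h' : D.F i f t < D.F i f' t') :
    D.P f t < D.P f' t' := by
  classical
  exact Finset.sum_lt_sum (fun j hj => h j (Finset.mem_filter.1 hj).2)
    ⟨i, Finset.mem_filter.2 ⟨Finset.mem_univ _, hi⟩, h'⟩

lemma M_lt {i : ι} (hi : D.v i < 0) {f t f' t' : ℤ}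
    (h : ∀ j, D.v j < 0 → D.F j f t ≤ D.F j f' t') (h' : D.F i f t < D.F i f' t') :
    D.M f t < D.M f' t' := by
  classical
  exact Finset.sum_lt_sum (fun j hj => h j (D.neg_of_not_pos (Finset.mem_filter.1 hj).2))
    ⟨i, Finset.mem_filter.2 ⟨Finset.mem_univ _, not_lt.2 hi.le⟩, h'⟩

/-- a step of a positive letter in the direction `f` -/
lemma stepP {i : ι} (hi : 0 < D.v i) {f t : ℤ} (h : D.F i f t < D.F i (f + 1) t) :
    D.P (f + 1) t = D.P f t + 1 ∧ D.M (f + 1) t = D.M f t := by
  have h1 := D.P_lt hi (fun j _ => D.F_mono_f j f t) h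
  have h2 := D.M_mono_f f t
  have h3 := D.P_add_M f t
  have h4 := D.P_add_M (f + 1) t
  constructor <;> omega

lemma stepM {i : ι} (hi : D.v i < 0) {f t : ℤ} (h : D.F i f t < D.F i (f + 1) t) :
    D.M (f + 1) t = D.M f t + 1 ∧ D.P (f + 1) t = D.P f t := by
  have h1 := D.M_lt hi (fun j _ => D.F_mono_f j f t) h
  have h2 := D.P_mono_f f t
  have h3 := D.P_add_M f t
  have h4 := D.P_add_M (f + 1) t
  constructor <;> omega

/-- the basic inequality -/
lemma P_le (f t : ℤ) : D.P (f + 1) t ≤ D.P f (t - 1) + 1 := by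
  have h2 := D.M_drop f t
  have h3 := D.P_add_M f (t - 1)
  have h4 := D.P_add_M (f + 1) t
  omega

lemma P_jump_le (f t : ℤ) : D.P f t ≤ D.P f (t - 1) + 1 :=
  (D.P_mono_f f t).trans (D.P_le f t)

lemma M_jump_le (f t : ℤ) : D.M f (t - 1) ≤ D.M f t + 1 := by
  have h1 := D.P_jump_le f t
  have h3 := D.P_add_M f (t - 1)
  have h4 := D.P_add_M f t
  omega

/-- the jump at an event of a positive letter -/
lemma jumpT {i : ι} (hi : 0 < D.v i) (z f : ℤ) :
    D.P f (D.T i z f) = D.P f (D.T i z f - 1) + 1 := by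
  have h1 := D.P_jump_le f (D.T i z f)
  have h2 : D.P f (D.T i z f - 1) < D.P f (D.T i z f) := by
    apply D.P_lt hi
    · intro j hj
      exact D.F_mono_t hj f (by omega)
    · have a1 := (D.T_le hi z f _).1 (le_refl (D.T i z f))
      have a2 : ¬ (z ≤ D.F i f (D.T i z f - 1)) := by
        rw [← D.T_le hi z f]
        omega
      omega
  omega

/-- the drop after an event of a negative letter -/
lemma jumpU {i : ι} (hi : D.v i < 0) (z f : ℤ) :
    D.M f (D.U i z f) = D.M f (D.U i z f + 1) + 1 := by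
  have h1 := D.M_jump_le f (D.U i z f + 1)
  rw [add_sub_cancel_right] at h1
  have h2 : D.M f (D.U i z f + 1) < D.M f (D.U i z f) := by
    apply D.M_lt hi
    · intro j hj
      exact D.F_anti_t hj f (by omega)
    · have a1 := (D.le_U hi z f _).1 (le_refl (D.U i z f))
      have a2 : ¬ (z ≤ D.F i f (D.U i z f + 1)) := by
        rw [← D.le_U hi z f]
        omega
      omega
  omega

/-- the rank of an event of a positive letter does not depend on the fibre -/
lemma rankT_succ {i : ι} (hi : 0 < D.v i) (z f : ℤ) :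
    D.P (f + 1) (D.T i z (f + 1)) = D.P f (D.T i z f) := by
  set t := D.T i z f with ht
  set t' := D.T i z (f + 1) with ht'
  have hle : t' ≤ t := by
    rw [ht', D.T_le hi]
    exact ((D.T_le hi z f t).1 (le_refl _)).trans (D.F_mono_f i f t)
  have hstep : ∀ s, t' ≤ s → s ≤ t - 1 → D.F i f s < D.F i (f + 1) s := by
    intro s h1 h2
    have a1 := (D.T_le hi z (f + 1) s).1 h1
    have a2 : ¬ (z ≤ D.F i f s) := by
      rw [← D.T_le hi z f]
      omega
    omega
  have hconst : ∀ s, t' ≤ s → s ≤ t - 1 → D.P f s = D.P f (s - 1) := by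
    intro s h1 h2
    have a1 := (D.stepP hi (hstep s h1 h2)).1
    have a2 := D.P_le f s
    have a3 := D.P_mono_t f (show s - 1 ≤ s by omega)
    omega
  have hconst' : ∀ k : ℕ, t' + k ≤ t → D.P f (t' + k - 1) = D.P f (t' - 1) := by
    intro k
    induction k with
    | zero => intro _; simp
    | succ k ih =>
      intro hk
      push_cast at hk ⊢
      rw [← ih (by omega), ← hconst (t' + k) (by omega) (by omega)]
      congr 1
      ring
  have h1 : D.P f (t - 1) = D.P f (t' - 1) := by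
    have := hconst' (t - t').toNat (by omega)
    rwa [Int.toNat_of_nonneg (by omega), add_sub_cancel] at this
  have h2 : D.P f t = D.P f (t - 1) + 1 := D.jumpT hi z f
  have h3 := D.P_le f t'
  have h4 : D.P f t' ≥ D.P f (t' - 1) := D.P_mono_t f (by omega)
  rcases hle.lt_or_eq with hlt | heq
  · have h5 := (D.stepP hi (hstep t' (le_refl _) (by omega))).1
    omega
  · have h5 := D.P_mono_f f t
    rw [heq] at h3 h4 ⊢
    omega

/-- the rank of an event of a negative letter does not depend on the fibre -/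
lemma rankU_succ {i : ι} (hi : D.v i < 0) (z f : ℤ) :
    D.M (f + 1) (D.U i z (f + 1)) = D.M f (D.U i z f) := by
  set t := D.U i z f with ht
  set t' := D.U i z (f + 1) with ht'
  have hle : t + 1 ≤ t' := by
    rw [ht', D.le_U hi]
    have := D.F_drop i hi f (t + 1)
    rw [add_sub_cancel_right] at this
    exact ((D.le_U hi z f t).1 (le_refl _)).trans this
  have hz : ∀ s, t + 1 ≤ s → D.F i f s < z := by
    intro s h1
    have a2 : ¬ (z ≤ D.F i f s) := by
      rw [← D.le_U hi z f]
      omega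
    omega
  have hz' : ∀ s, s ≤ t' → z ≤ D.F i (f + 1) s := by
    intro s h1
    exact (D.le_U hi z (f + 1) s).1 h1
  have hstep : ∀ s, t + 1 ≤ s → s ≤ t' → D.F i f s < D.F i (f + 1) s := by
    intro s h1 h2
    have a1 := hz s h1
    have a2 := hz' s h2
    omega
  have hconst : ∀ s, t + 2 ≤ s → s ≤ t' → D.M f s = D.M f (s - 1) := by
    intro s h1 h2
    apply le_antisymm (D.M_anti_t f (by omega))
    classical
    apply Finset.sum_le_sum
    intro j hj
    have hjn := D.neg_of_not_pos (Finset.mem_filter.1 hj).2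
    by_cases hji : j = i
    · subst hji
      have a1 := hz (s - 1) (by omega)
      have a2 := D.G_le_one j f s
      have a3 := hz' s h2
      omega
    · have a1 := D.F_drop j hjn f s
      have a2 : ¬ D.F j f s < D.F j (f + 1) s := by
        intro hlt
        exact hji (D.unique_G hlt (hstep s (by omega) h2))
      omega
  have hconst' : ∀ k : ℕ, t + 1 + k ≤ t' → D.M f (t + 1 + k) = D.M f (t + 1) := by
    intro k
    induction k with
    | zero => intro _; simp
    | succ k ih =>
      intro hk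
      push_cast at hk ⊢
      rw [← ih (by omega), hconst (t + 1 + (k + 1)) (by omega) (by omega)]
      congr 1
      ring
  have h1 : D.M f t' = D.M f (t + 1) := by
    have := hconst' (t' - (t + 1)).toNat (by omega)
    rwa [Int.toNat_of_nonneg (by omega), add_sub_cancel] at this
  have h2 := (D.stepM hi (hstep t' hle (le_refl _))).1
  have h3 : D.M f t = D.M f (t + 1) + 1 := D.jumpU hi z f
  omega

lemma rankT {i : ι} (hi : 0 < D.v i) (z f : ℤ) : D.P f (D.T i z f) = D.P 0 (D.T i z 0) := by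
  induction f using Int.induction_on with
  | zero => rfl
  | succ k ih => rw [← ih, D.rankT_succ hi]
  | pred k ih =>
    rw [← ih, ← D.rankT_succ hi z (-(k:ℤ) - 1)]
    congr 1
    · ring
    · congr 1
      ring

lemma rankU {i : ι} (hi : D.v i < 0) (z f : ℤ) : D.M f (D.U i z f) = D.M 0 (D.U i z 0) := by
  induction f using Int.induction_on with
  | zero => rfl
  | succ k ih => rw [← ih, D.rankU_succ hi]
  | pred k ih =>
    rw [← ih, ← D.rankU_succ hi z (-(k:ℤ) - 1)]
    congr 1
    · ring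
    · congr 1
      ring

/-- in the fibre `f = k + m - 1 - C` the two events are simultaneous -/
lemma T_eq_U {i l : ι} (hi : 0 < D.v i) (hl : D.v l < 0) (z w f : ℤ)
    (hf : f + D.C = D.P 0 (D.T i z 0) + D.M 0 (D.U l w 0) - 1) :
    D.T i z f = D.U l w f + 1 := by
  rw [← D.rankT hi z f, ← D.rankU hl w f] at hf
  have h1 := D.jumpT hi z f
  have h2 := D.jumpU hl w f
  set t := D.T i z f
  set u := D.U l w f
  have h3 := D.P_add_M f t
  have h4 := D.P_add_M f (t - 1)
  have h5 := D.P_add_M f u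
  have h6 := D.P_add_M f (u + 1)
  rcases lt_trichotomy t (u + 1) with h | h | h
  · have := D.P_mono_t f (show t ≤ u by omega)
    omega
  · exact h
  · have := D.P_mono_t f (show u + 1 ≤ t - 1 by omega)
    omega

end KD

end Pool.Agent.Helper7.FE
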