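import Pool.Agent.Helper7.FE.Key
import Pool.Agent.Helper27.FK.Two

/-!
# The key lemma, part 2: equal slopes, arithmetic progressions of ranks, the exact covers
-/

open Finset

namespace Pool.Agent.Helper7.FE

/-- an integer sequence which is close to `z p` up to differences is an arithmetic progression,
and `p` is an integer -/
lemma arith {k : ℤ → ℤ} {p : ℝ} (h : ∀ z z' : ℤ, |(z - z' : ℝ) * p - (k z - k z')| < 1 / 2) :
    ∃ T : ℤ, p = T ∧ ∀ z, k z = k 0 + z * T := by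
  have h1 : ∀ z, k (z + 1) - k z = k 1 - k 0 := by
    intro z
    have a1 := abs_lt.1 (h (z + 1) z)
    have a2 := abs_lt.1 (h 1 0)
    push_cast at a1 a2
    have a3 : ((k (z + 1) - k z - (k 1 - k 0) : ℤ) : ℝ) < 1 := by
      push_cast
      linarith [a1.1, a1.2, a2.1, a2.2]
    have a4 : (-1 : ℝ) < ((k (z + 1) - k z - (k 1 - k 0) : ℤ) : ℝ) := by
      push_cast
      linarith [a1.1, a1.2, a2.1, a2.2]
    have a5 : k (z + 1) - k z - (k 1 - k 0) < 1 := by exact_mod_cast a3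
    have a6 : -1 < k (z + 1) - k z - (k 1 - k 0) := by exact_mod_cast a4
    omega
  have h2 : ∀ z, k z = k 0 + z * (k 1 - k 0) := by
    intro z
    induction z using Int.induction_on with
    | zero => simp
    | succ n ih =>
      have := h1 n
      linarith [this, ih]
    | pred n ih =>
      have := h1 (-(n:ℤ) - 1)
      rw [sub_add_cancel] at this
      linarith [this, ih]
  refine ⟨k 1 - k 0, ?_, h2⟩
  by_contra hne
  set T : ℝ := ((k 1 - k 0 : ℤ) : ℝ) with hT
  have hpos : 0 < |p - T| := abs_pos.2 (sub_ne_zero.2 hne)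
  obtain ⟨n, hn⟩ := exists_nat_gt (1 / |p - T|)
  have h3 := h n 0
  rw [h2 n] at h3
  have h4 : ((n : ℤ) - (0 : ℤ) : ℝ) * p - (((k 0 + n * (k 1 - k 0) : ℤ) : ℝ) - (k 0 : ℝ)) =
      n * (p - T) := by
    rw [hT]
    push_cast
    ring
  rw [h4, abs_mul, Nat.abs_cast] at h3
  rw [div_lt_iff₀ hpos] at hn
  linarith

lemma slope_zero {g : ℤ → ℤ} (hg : ∀ K : ℤ, ∃ w, K ≤ g w) {A B d : ℝ}
    (h : ∀ w, |A - g w * d| ≤ B) : d = 0 := by
  by_contra hd
  have hpos : 0 < |d| := abs_pos.2 hd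
  obtain ⟨n, hn⟩ := exists_nat_gt ((B + |A|) / |d|)
  obtain ⟨w, hw⟩ := hg n
  rw [div_lt_iff₀ hpos] at hn
  have h1 : (n : ℝ) ≤ g w := by exact_mod_cast hw
  have h2 := h w
  have h3 : |(g w : ℝ) * d| ≤ |A - g w * d| + |A| := by
    have := abs_sub_abs_le_abs_sub ((g w : ℝ) * d) A
    rw [abs_sub_comm] at this
    linarith
  rw [abs_mul, abs_of_nonneg (show (0:ℝ) ≤ g w by linarith [Nat.cast_nonneg (α := ℝ) n])] at h3
  have h4 := mul_le_mul_of_nonneg_right h1 hpos.le
  linarith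

/-- **the covering lemma**: every integer is the rank of an event of exactly one letter. -/
lemma cover {ι : Type*} (A : Finset ι) (F : ι → ℤ → ℤ) (τ : ι → ℤ → ℤ)
    (hmono : ∀ i ∈ A, ∀ t, F i (t - 1) ≤ F i t)
    (hmono' : ∀ s t : ℤ, s ≤ t → ∑ i ∈ A, F i s ≤ ∑ i ∈ A, F i t)
    (hjump : ∀ t, ∑ i ∈ A, F i t ≤ ∑ i ∈ A, F i (t - 1) + 1)
    (hub : ∀ K : ℤ, ∃ t, K ≤ ∑ i ∈ A, F i t) (hlb : ∀ K : ℤ, ∃ t, ∑ i ∈ A, F i t < K)
    (hτ : ∀ i ∈ A, ∀ z t, τ i z ≤ t ↔ z ≤ F i t) (k : ℤ) :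
    ∃! i, i ∈ A ∧ ∃ z, ∑ j ∈ A, F j (τ i z) = k := by
  classical
  obtain ⟨b, hb⟩ := hlb k
  obtain ⟨T, hT, hmin⟩ := Int.exists_least_of_bdd (P := fun t => k ≤ ∑ i ∈ A, F i t)
    ⟨b, fun z hz => by
      by_contra hlt
      have := hmono' z b (by omega)
      omega⟩ (hub k)
  have hT1 : ∑ i ∈ A, F i (T - 1) < k := by
    by_contra hge
    have := hmin (T - 1) (not_lt.1 hge)
    omega
  have hT2 := hjump T
  have hTk : ∑ i ∈ A, F i T = k := by omega
  have huniq : ∀ i ∈ A, ∀ j ∈ A, F i (T - 1) < F i T → F j (T - 1) < F j T → i = j := by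
    intro i hi j hj h1 h2
    by_contra hij
    have h3 : ∑ l ∈ ({i, j} : Finset ι), (F l T - F l (T - 1)) ≤
        ∑ l ∈ A, (F l T - F l (T - 1)) := by
      apply Finset.sum_le_sum_of_subset_of_nonneg
      · intro l hl
        rcases Finset.mem_insert.1 hl with rfl | hl
        · exact hi
        · rw [Finset.mem_singleton.1 hl]
          exact hj
      · intro l hl _
        have := hmono l hl T
        omega
    rw [Finset.sum_pair hij, Finset.sum_sub_distrib] at h3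
    omega
  have hjumpτ : ∀ i ∈ A, ∀ z, F i (τ i z - 1) < F i (τ i z) := by
    intro i hi z
    have a1 := (hτ i hi z (τ i z)).1 (le_refl _)
    have a2 : ¬ (z ≤ F i (τ i z - 1)) := by
      rw [← hτ i hi z]
      omega
    omega
  obtain ⟨i, hi, hlt⟩ : ∃ i ∈ A, F i (T - 1) < F i T := by
    by_contra hcon
    push Not at hcon
    have := Finset.sum_le_sum hcon
    omega
  have hτi : τ i (F i T) = T := by
    apply le_antisymm
    · rw [hτ i hi]
    · by_contra hlt'
      have : τ i (F i T) ≤ T - 1 := by omega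
      rw [hτ i hi] at this
      omega
  refine ⟨i, ⟨hi, F i T, by rw [hτi]; exact hTk⟩, ?_⟩
  rintro j ⟨hj, z, hz⟩
  have h1 := hjumpτ j hj z
  have h2 : ∑ l ∈ A, F l (τ j z - 1) < k := by
    rw [← hz]
    exact Finset.sum_lt_sum (fun l hl => hmono l hl _) ⟨j, hj, h1⟩
  have h3 : T = τ j z := by
    apply le_antisymm
    · exact hmin _ (by rw [hz])
    · by_contra hlt'
      have := hmono' T (τ j z - 1) (by omega)
      omega
  rw [← h3] at h1
  exact huniq j hj i hi h1 hlt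

namespace KD

variable {ι : Type*} [Fintype ι] (D : KD ι)

/-- the rank of a positive event -/
noncomputable def kk (i : ι) (z : ℤ) : ℤ := D.P 0 (D.T i z 0)

/-- the rank of a negative event -/
noncomputable def mm (i : ι) (z : ℤ) : ℤ := D.M 0 (D.U i z 0)

open Classical in
/-- the total positive slope -/
noncomputable def V : ℝ := ∑ i ∈ Finset.univ.filter (fun i => 0 < D.v i), D.v i

lemma V_pos : 0 < D.V := by
  classical
  obtain ⟨i, hi⟩ := D.exists_pos
  exact Finset.sum_pos (fun j hj => (Finset.mem_filter.1 hj).2)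
    ⟨i, Finset.mem_filter.2 ⟨Finset.mem_univ _, hi⟩⟩

open Classical in
lemma V_neg : ∑ i ∈ Finset.univ.filter (fun i => ¬ 0 < D.v i), D.v i = -D.V := by
  have := D.hv1
  rw [← Finset.sum_filter_add_sum_filter_not Finset.univ (fun i => 0 < D.v i)] at this
  unfold V
  linarith

lemma V_le : D.V ≤ 1 / 4 := by
  classical
  have h := D.hvs
  rw [← Finset.sum_filter_add_sum_filter_not Finset.univ (fun i => 0 < D.v i)] at h
  have h1 : ∑ i ∈ Finset.univ.filter (fun i => 0 < D.v i), |D.v i| = D.V := by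
    unfold V
    exact Finset.sum_congr rfl fun i hi => abs_of_pos (Finset.mem_filter.1 hi).2
  have h2 : ∑ i ∈ Finset.univ.filter (fun i => ¬ 0 < D.v i), |D.v i| = D.V := by
    rw [← neg_neg D.V, ← D.V_neg, ← Finset.sum_neg_distrib]
    exact Finset.sum_congr rfl fun i hi => abs_of_nonpos (not_lt.1 (Finset.mem_filter.1 hi).2)
  rw [h1, h2] at h
  linarith

lemma P_bound : ∃ A B : ℝ, ∀ t : ℤ, A + t * D.V ≤ D.P 0 t ∧ (D.P 0 t : ℝ) ≤ B + t * D.V := by
  classical
  refine ⟨∑ i ∈ Finset.univ.filter (fun i => 0 < D.v i), (D.θ i - 1),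
    ∑ i ∈ Finset.univ.filter (fun i => 0 < D.v i), D.θ i, fun t => ?_⟩
  unfold V P
  rw [Finset.mul_sum, ← Finset.sum_add_distrib, ← Finset.sum_add_distrib]
  push_cast
  constructor
  · apply Finset.sum_le_sum
    intro i _
    unfold F
    have := Int.lt_floor_add_one (D.θ i + ((0:ℤ):ℝ) * D.r i + t * D.v i)
    push_cast at this ⊢
    linarith
  · apply Finset.sum_le_sum
    intro i _
    unfold F
    have := Int.floor_le (D.θ i + ((0:ℤ):ℝ) * D.r i + t * D.v i)
    push_cast at this ⊢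
    linarith

lemma P_ub (K : ℤ) : ∃ t, K ≤ D.P 0 t := by
  obtain ⟨A, B, h⟩ := D.P_bound
  obtain ⟨n, hn⟩ := exists_nat_gt ((K - A) / D.V)
  refine ⟨n, ?_⟩
  rw [div_lt_iff₀ D.V_pos] at hn
  have := (h n).1
  push_cast at this
  have : (K : ℝ) ≤ D.P 0 n := by linarith
  exact_mod_cast this

lemma P_lb (K : ℤ) : ∃ t, D.P 0 t < K := by
  obtain ⟨A, B, h⟩ := D.P_bound
  obtain ⟨n, hn⟩ := exists_nat_gt ((B - K) / D.V)
  refine ⟨-n, ?_⟩
  rw [div_lt_iff₀ D.V_pos] at hn
  have := (h (-n)).2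
  push_cast at this
  have : (D.P 0 (-n) : ℝ) < K := by linarith
  exact_mod_cast this

lemma kk_ub {i : ι} (hi : 0 < D.v i) (K : ℤ) : ∃ z, K ≤ D.kk i z := by
  obtain ⟨t, ht⟩ := D.P_ub K
  refine ⟨D.F i 0 t + 1, ht.trans ?_⟩
  unfold kk
  apply D.P_mono_t
  by_contra hlt
  have h1 : D.T i (D.F i 0 t + 1) 0 ≤ t := by omega
  rw [D.T_le hi] at h1
  omega

lemma mm_lb {l : ι} (hl : D.v l < 0) (K : ℤ) : ∃ z, D.mm l z ≤ K := by
  obtain ⟨t, ht⟩ := D.P_ub (D.C - K)
  refine ⟨D.F l 0 t, ?_⟩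
  have h1 : t ≤ D.U l (D.F l 0 t) 0 := by rw [D.le_U hl]
  have h2 := D.M_anti_t 0 h1
  have h3 := D.P_add_M 0 t
  unfold mm
  omega

/-- the basic estimate for a positive and a negative event -/
lemma est {i l : ι} (hi : 0 < D.v i) (hl : D.v l < 0) (z w : ℤ) :
    -1 < (z - D.θ i) / D.v i - (w - D.θ l) / D.v l -
      (D.kk i z + D.mm l w - 1 - D.C) * (D.r i / D.v i - D.r l / D.v l) ∧
    (z - D.θ i) / D.v i - (w - D.θ l) / D.v l -
      (D.kk i z + D.mm l w - 1 - D.C) * (D.r i / D.v i - D.r l / D.v l) ≤ 1 := by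
  have h := D.T_eq_U hi hl z w (D.kk i z + D.mm l w - 1 - D.C) (by unfold kk mm; ring)
  have h1 : (D.T i z (D.kk i z + D.mm l w - 1 - D.C) : ℝ) - 1 <
      (z - D.θ i - ((D.kk i z + D.mm l w - 1 - D.C : ℤ) : ℝ) * D.r i) / D.v i ∧
      (z - D.θ i - ((D.kk i z + D.mm l w - 1 - D.C : ℤ) : ℝ) * D.r i) / D.v i ≤
      D.T i z (D.kk i z + D.mm l w - 1 - D.C) := by
    unfold T
    constructor
    · have := Int.ceil_lt_add_one
        ((z - D.θ i - ((D.kk i z + D.mm l w - 1 - D.C : ℤ) : ℝ) * D.r i) / D.v i)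
      linarith
    · exact Int.le_ceil _
  have h2 : (D.U l w (D.kk i z + D.mm l w - 1 - D.C) : ℝ) ≤
      (w - D.θ l - ((D.kk i z + D.mm l w - 1 - D.C : ℤ) : ℝ) * D.r l) / D.v l ∧
      (w - D.θ l - ((D.kk i z + D.mm l w - 1 - D.C : ℤ) : ℝ) * D.r l) / D.v l <
      D.U l w (D.kk i z + D.mm l w - 1 - D.C) + 1 := by
    unfold U
    exact ⟨Int.floor_le _, Int.lt_floor_add_one _⟩
  have h3 : (D.T i z (D.kk i z + D.mm l w - 1 - D.C) : ℝ) =
      D.U l w (D.kk i z + D.mm l w - 1 - D.C) + 1 := by exact_mod_cast h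
  rw [sub_div, mul_div_assoc] at h1 h2
  push_cast at h1 h2 h3
  constructor <;> linarith [h1.1, h1.2, h2.1, h2.2]

lemma slope_pos {i j : ι} (hi : 0 < D.v i) (hj : 0 < D.v j) :
    D.r i / D.v i = D.r j / D.v j := by
  obtain ⟨l, hl⟩ := D.exists_neg
  have h : D.r i / D.v i - D.r j / D.v j = 0 := by
    refine slope_zero (g := fun w => -D.mm l w)
      (A := -(((0:ℤ) - D.θ i) / D.v i - (D.kk i 0 - 1 - D.C) * (D.r i / D.v i - D.r l / D.v l) -
        ((((0:ℤ) - D.θ j) / D.v j) - (D.kk j 0 - 1 - D.C) * (D.r j / D.v j - D.r l / D.v l))))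
      (B := 2) ?_ ?_
    · intro K
      obtain ⟨w, hw⟩ := D.mm_lb hl (-K)
      exact ⟨w, by omega⟩
    · intro w
      have h1 := D.est hi hl 0 w
      have h2 := D.est hj hl 0 w
      push_cast at h1 h2 ⊢
      rw [abs_le]
      constructor <;> linarith [h1.1, h1.2, h2.1, h2.2]
  linarith

lemma slope_neg {i j : ι} (hi : D.v i < 0) (hj : D.v j < 0) :
    D.r i / D.v i = D.r j / D.v j := by
  obtain ⟨l, hl⟩ := D.exists_pos
  have h : D.r i / D.v i - D.r j / D.v j = 0 := by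
    refine slope_zero (g := fun w => D.kk l w)
      (A := (((0:ℤ) - D.θ i) / D.v i + (D.mm i 0 - 1 - D.C) * (D.r l / D.v l - D.r i / D.v i) -
        ((((0:ℤ) - D.θ j) / D.v j) + (D.mm j 0 - 1 - D.C) * (D.r l / D.v l - D.r j / D.v j))))
      (B := 2) ?_ ?_
    · intro K
      exact D.kk_ub hl K
    · intro w
      have h1 := D.est hl hi w 0
      have h2 := D.est hl hj w 0
      push_cast at h1 h2 ⊢
      rw [abs_le]
      constructor <;> linarith [h1.1, h1.2, h2.1, h2.2]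
  linarith

/-- the total slope is the inverse of `V` -/
lemma slope_total {i l : ι} (hi : 0 < D.v i) (hl : D.v l < 0) :
    (D.r i / D.v i - D.r l / D.v l) * D.V = 1 := by
  classical
  rw [← D.hs, ← Finset.sum_filter_add_sum_filter_not Finset.univ (fun i => 0 < D.v i)]
  have h1 : ∑ j ∈ Finset.univ.filter (fun i => 0 < D.v i), D.r j = D.r i / D.v i * D.V := by
    unfold V
    rw [Finset.mul_sum]
    apply Finset.sum_congr rfl
    intro j hj
    have hj' := (Finset.mem_filter.1 hj).2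
    rw [D.slope_pos hi hj', div_mul_cancel₀ _ hj'.ne']
  have h2 : ∑ j ∈ Finset.univ.filter (fun i => ¬ 0 < D.v i), D.r j =
      D.r l / D.v l * (-D.V) := by
    rw [← D.V_neg, Finset.mul_sum]
    apply Finset.sum_congr rfl
    intro j hj
    have hj' := D.neg_of_not_pos (Finset.mem_filter.1 hj).2
    rw [D.slope_neg hl hj', div_mul_cancel₀ _ hj'.ne]
  rw [h1, h2]
  ring

lemma slope_ge {i l : ι} (hi : 0 < D.v i) (hl : D.v l < 0) :
    4 ≤ D.r i / D.v i - D.r l / D.v l := by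
  have h1 := D.slope_total hi hl
  have h2 := D.V_pos
  have h3 := D.V_le
  by_contra hlt
  push Not at hlt
  have h4 : 0 < D.r i / D.v i - D.r l / D.v l := by
    have a1 := div_pos (D.hr i) hi
    have a2 := div_neg_of_pos_of_neg (D.hr l) hl
    linarith
  nlinarith

/-- ranks of the events of a positive letter form an arithmetic progression -/
lemma arith_pos {i l : ι} (hi : 0 < D.v i) (hl : D.v l < 0) :
    ∃ T : ℤ, 0 < T ∧ D.r i = (D.r i / D.v i) / (D.r i / D.v i - D.r l / D.v l) / T ∧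
      ∀ z, D.kk i z = D.kk i 0 + z * T := by
  set Δ := D.r i / D.v i - D.r l / D.v l with hΔ
  have h4 : 4 ≤ Δ := D.slope_ge hi hl
  have hp : ∀ z z' : ℤ, |(z - z' : ℝ) * (1 / (D.v i * Δ)) - (D.kk i z - D.kk i z')| < 1 / 2 := by
    intro z z'
    have h1 := D.est hi hl z 0
    have h2 := D.est hi hl z' 0
    rw [← hΔ] at h1 h2
    have h3 : (z - z' : ℝ) * (1 / (D.v i * Δ)) - (D.kk i z - D.kk i z') =
        ((z - z' : ℝ) / D.v i - (D.kk i z - D.kk i z') * Δ) / Δ := by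
      have : Δ ≠ 0 := by linarith
      field_simp
    rw [h3, abs_div, abs_of_pos (show 0 < Δ by linarith), div_lt_iff₀ (by linarith)]
    have h5 : |(z - z' : ℝ) / D.v i - (D.kk i z - D.kk i z') * Δ| < 2 := by
      rw [sub_div] at h1 h2 ⊢
      rw [sub_div] at h1 h2
      rw [abs_lt]
      constructor <;> linarith [h1.1, h1.2, h2.1, h2.2]
    linarith
  obtain ⟨T, hT, hk⟩ := arith hp
  refine ⟨T, ?_, ?_, hk⟩
  · have : (0:ℝ) < T := by
      rw [← hT]
      apply div_pos one_pos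
      apply mul_pos hi
      linarith
    exact_mod_cast this
  · rw [← hT]
    have : Δ ≠ 0 := by linarith
    have := hi.ne'
    field_simp

/-- ranks of the events of a negative letter form an arithmetic progression -/
lemma arith_neg {i l : ι} (hi : 0 < D.v i) (hl : D.v l < 0) :
    ∃ T : ℤ, 0 < T ∧ D.r l = (-(D.r l / D.v l)) / (D.r i / D.v i - D.r l / D.v l) / T ∧
      ∀ z, D.mm l z = D.mm l 0 + z * T := by
  set Δ := D.r i / D.v i - D.r l / D.v l with hΔ
  have h4 : 4 ≤ Δ := D.slope_ge hi hl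
  have hp : ∀ z z' : ℤ, |(z - z' : ℝ) * (1 / (-D.v l * Δ)) - (D.mm l z - D.mm l z')| < 1 / 2 := by
    intro z z'
    have h1 := D.est hi hl 0 z
    have h2 := D.est hi hl 0 z'
    rw [← hΔ] at h1 h2
    have h3 : (z - z' : ℝ) * (1 / (-D.v l * Δ)) - (D.mm l z - D.mm l z') =
        -((z - z' : ℝ) / D.v l + (D.mm l z - D.mm l z') * Δ) / Δ := by
      have : Δ ≠ 0 := by linarith
      have := hl.ne
      field_simp
      ring
    rw [h3, abs_div, abs_neg, abs_of_pos (show 0 < Δ by linarith), div_lt_iff₀ (by linarith)]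
    have h5 : |(z - z' : ℝ) / D.v l + (D.mm l z - D.mm l z') * Δ| < 2 := by
      rw [sub_div] at h1 h2 ⊢
      rw [sub_div] at h1 h2
      rw [abs_lt]
      constructor <;> linarith [h1.1, h1.2, h2.1, h2.2]
    linarith
  obtain ⟨T, hT, hk⟩ := arith hp
  refine ⟨T, ?_, ?_, hk⟩
  · have : (0:ℝ) < T := by
      rw [← hT]
      apply div_pos one_pos
      apply mul_pos (by linarith)
      linarith
    exact_mod_cast this
  · rw [← hT]
    have : Δ ≠ 0 := by linarith
    have := hl.ne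
    field_simp

lemma cover_pos (k : ℤ) : ∃! i, 0 < D.v i ∧ ∃ z, D.kk i z = k := by
  classical
  have := cover (Finset.univ.filter (fun i => 0 < D.v i)) (fun i t => D.F i 0 t)
    (fun i z => D.T i z 0)
    (fun i hi t => D.F_mono_t (Finset.mem_filter.1 hi).2 0 (by omega))
    (fun s t h => D.P_mono_t 0 h) (fun t => D.P_jump_le 0 t) D.P_ub D.P_lb
    (fun i hi z t => D.T_le (Finset.mem_filter.1 hi).2 z 0 t) k
  obtain ⟨i, ⟨hi, z, hz⟩, huni⟩ := this
  refine ⟨i, ⟨(Finset.mem_filter.1 hi).2, z, hz⟩, ?_⟩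
  rintro j ⟨hj, w, hw⟩
  exact huni j ⟨Finset.mem_filter.2 ⟨Finset.mem_univ _, hj⟩, w, hw⟩

lemma cover_neg (k : ℤ) : ∃! i, ¬ 0 < D.v i ∧ ∃ z, D.mm i z = k := by
  classical
  have := cover (Finset.univ.filter (fun i => ¬ 0 < D.v i)) (fun i t => D.F i 0 (-t))
    (fun i z => -D.U i z 0)
    (fun i hi t => D.F_anti_t (D.neg_of_not_pos (Finset.mem_filter.1 hi).2) 0 (by omega))
    (fun s t h => D.M_anti_t 0 (by omega))
    (fun t => by
      have := D.M_jump_le 0 (-t + 1)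
      rw [add_sub_cancel_right] at this
      have e : -(t - 1) = -t + 1 := by ring
      rw [e]
      exact this)
    (fun K => by
      obtain ⟨t, ht⟩ := D.P_lb (D.C - K)
      have := D.P_add_M 0 t
      refine ⟨-t, ?_⟩
      change K ≤ D.M 0 (- -t)
      rw [neg_neg]
      omega)
    (fun K => by
      obtain ⟨t, ht⟩ := D.P_ub (D.C - K + 1)
      have := D.P_add_M 0 t
      refine ⟨-t, ?_⟩
      change D.M 0 (- -t) < K
      rw [neg_neg]
      omega)
    (fun i hi z t => by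
      rw [← D.le_U (D.neg_of_not_pos (Finset.mem_filter.1 hi).2) z 0 (-t)]
      constructor <;> intro h <;> omega) k
  obtain ⟨i, ⟨hi, z, hz⟩, huni⟩ := this
  refine ⟨i, ⟨(Finset.mem_filter.1 hi).2, z, ?_⟩, ?_⟩
  · simp only [neg_neg] at hz
    exact hz
  · rintro j ⟨hj, w, hw⟩
    refine huni j ⟨Finset.mem_filter.2 ⟨Finset.mem_univ _, hj⟩, w, ?_⟩
    simp only [neg_neg]
    exact hw

end KD

open Pool.Agent.Helper27.FK in
/-- **the key lemma** -/
theorem twoLetter_of_KD {n : ℕ} (D : KD (Fin n)) : TwoLetter D.r := by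
  classical
  obtain ⟨i₀, hi₀⟩ := D.exists_pos
  obtain ⟨l₀, hl₀⟩ := D.exists_neg
  set α := D.r i₀ / D.v i₀ with hα
  set β := D.r l₀ / D.v l₀ with hβ
  have hαpos : 0 < α := div_pos (D.hr _) hi₀
  have hβneg : β < 0 := div_neg_of_pos_of_neg (D.hr _) hl₀
  have hP : ∀ i, 0 < D.v i → ∃ T : ℤ, 0 < T ∧ D.r i = α / (α - β) / T ∧
      ∀ z, D.kk i z = D.kk i 0 + z * T := by
    intro i hi
    have := D.arith_pos hi hl₀
    rwa [D.slope_pos hi hi₀] at this
  have hM : ∀ i, D.v i < 0 → ∃ T : ℤ, 0 < T ∧ D.r i = (-β) / (α - β) / T ∧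
      ∀ z, D.mm i z = D.mm i 0 + z * T := by
    intro i hi
    have := D.arith_neg hi₀ hi
    rwa [D.slope_neg hi hl₀] at this
  have hall : ∀ i, ∃ T : ℕ, ∃ a : ℤ, 0 < T ∧
      (0 < D.v i → D.r i = α / (α - β) / T ∧ ∀ z, D.kk i z = a + z * T) ∧
      (¬ 0 < D.v i → D.r i = (-β) / (α - β) / T ∧ ∀ z, D.mm i z = a + z * T) := by
    intro i
    by_cases hi : 0 < D.v i
    · obtain ⟨T, hT, h1, h2⟩ := hP i hi
      obtain ⟨m, rfl⟩ := Int.eq_ofNat_of_zero_le hT.le
      refine ⟨m, D.kk i 0, by exact_mod_cast hT, fun _ => ⟨by exact_mod_cast h1, h2⟩,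
        fun h => absurd hi h⟩
    · obtain ⟨T, hT, h1, h2⟩ := hM i (D.neg_of_not_pos hi)
      obtain ⟨m, rfl⟩ := Int.eq_ofNat_of_zero_le hT.le
      refine ⟨m, D.mm i 0, by exact_mod_cast hT, fun h => absurd h hi,
        fun _ => ⟨by exact_mod_cast h1, h2⟩⟩
  choose T a hT hpos hneg using hall
  have hden : 0 < α - β := by linarith
  refine ⟨α / (α - β), fun i => decide (0 < D.v i), T, a, div_pos hαpos hden, ?_, hT, ?_, ?_⟩
  · rw [div_lt_one hden]
    linarith
  · intro i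
    by_cases hi : 0 < D.v i
    · simp only [hi, decide_true, if_true]
      exact (hpos i hi).1
    · simp only [hi, decide_false]
      rw [(hneg i hi).1]
      have : (1 - α / (α - β)) = -β / (α - β) := by
        field_simp
        ring
      simp [this]
  · intro b m
    have key : ∀ i, (0 < D.v i → ((T i : ℤ) ∣ m - a i ↔ ∃ z, D.kk i z = m)) ∧
        (¬ 0 < D.v i → ((T i : ℤ) ∣ m - a i ↔ ∃ z, D.mm i z = m)) := by
      intro i
      constructor
      · intro hi
        constructor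
        · rintro ⟨z, hz⟩
          exact ⟨z, by rw [(hpos i hi).2]; linarith⟩
        · rintro ⟨z, hz⟩
          rw [(hpos i hi).2] at hz
          exact ⟨z, by linarith⟩
      · intro hi
        constructor
        · rintro ⟨z, hz⟩
          exact ⟨z, by rw [(hneg i hi).2]; linarith⟩
        · rintro ⟨z, hz⟩
          rw [(hneg i hi).2] at hz
          exact ⟨z, by linarith⟩
    cases b
    · obtain ⟨i, ⟨hi, hz⟩, huni⟩ := D.cover_neg m
      refine ⟨i, ⟨by simpa using hi, ((key i).2 hi).2 hz⟩, ?_⟩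
      rintro j ⟨hj, hd⟩
      have hj' : ¬ 0 < D.v j := by simpa using hj
      exact huni j ⟨hj', ((key j).2 hj').1 hd⟩
    · obtain ⟨i, ⟨hi, hz⟩, huni⟩ := D.cover_pos m
      refine ⟨i, ⟨by simpa using hi, ((key i).1 hi).2 hz⟩, ?_⟩
      rintro j ⟨hj, hd⟩
      have hj' : 0 < D.v j := by simpa using hj
      exact huni j ⟨hj', ((key j).1 hj').1 hd⟩

end Pool.Agent.Helper7.FE
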