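import Pool.Agent.Helper7.FE.Key2
import Pool.Agent.Helper7.FR.Cover

/-!
# The effective theorem: admissible tuples are of two-letter type or have a small denominator
-/

open Finset

namespace Pool.Agent.Helper7.FE

open Pool.Agent.Helper7.FR Pool.Agent.Helper27.FK

/-- the key lemma for the identity `∑ i, {j r i + θ i} = c` -/
theorem twoLetter_of_small {n : ℕ} {r θ : Fin n → ℝ} {c : ℝ} (hr : ∀ i, 0 < r i)
    (hs : ∑ i, r i = 1) (hc : ∀ j : ℤ, ∑ i, Int.fract ((j:ℝ) * r i + θ i) = c)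
    (N : ℤ) (z : Fin n → ℤ) (hv : ∀ i, -(r i) ≤ N * r i - z i)
    (hvs : ∑ i, |N * r i - z i| ≤ 1 / 2) (hv0 : ∃ i, N * r i - z i ≠ 0) : TwoLetter r := by
  have hfl : ∀ j : ℤ, ((∑ i, ⌊(j:ℝ) * r i + θ i⌋ : ℤ) : ℝ) = j + ∑ i, θ i - c := by
    intro j
    have h1 := hc j
    unfold Int.fract at h1
    rw [Finset.sum_sub_distrib, Finset.sum_add_distrib, ← Finset.mul_sum, hs] at h1
    push_cast
    linarith
  have hsum0 : (N : ℤ) - ∑ i, z i = 0 := by
    have h1 : |(((N : ℤ) - ∑ i, z i : ℤ) : ℝ)| ≤ 1 / 2 := by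
      refine le_trans (le_of_eq ?_) ((Finset.abs_sum_le_sum_abs _ _).trans hvs)
      congr 1
      push_cast
      rw [Finset.sum_sub_distrib, ← Finset.mul_sum, hs, mul_one]
    rw [abs_le] at h1
    have h2 : (N : ℤ) - ∑ i, z i < 1 := by
      have : (((N : ℤ) - ∑ i, z i : ℤ) : ℝ) < 1 := by linarith [h1.2]
      exact_mod_cast this
    have h3 : -1 < (N : ℤ) - ∑ i, z i := by
      have : (-1 : ℝ) < (((N : ℤ) - ∑ i, z i : ℤ) : ℝ) := by linarith [h1.1]
      exact_mod_cast this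
    omega
  have hF : ∀ (f t : ℤ) (i : Fin n), ⌊θ i + f * r i + t * (N * r i - z i)⌋ =
      ⌊((f + t * N : ℤ) : ℝ) * r i + θ i⌋ - t * z i := by
    intro f t i
    rw [← Int.floor_sub_intCast]
    congr 1
    push_cast
    ring
  exact twoLetter_of_KD
    { r := r
      θ := θ
      v := fun i => N * r i - z i
      C := ∑ i, ⌊((0:ℤ):ℝ) * r i + θ i⌋
      hr := hr
      hs := hs
      hv := hv
      hvs := hvs
      hv1 := by
        rw [Finset.sum_sub_distrib, ← Finset.mul_sum, hs, mul_one]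
        have : ((N - ∑ i, z i : ℤ) : ℝ) = 0 := by exact_mod_cast hsum0
        push_cast at this
        exact this
      hv0 := hv0
      H := by
        intro f t
        rw [Finset.sum_congr rfl fun i _ => hF f t i, Finset.sum_sub_distrib, ← Finset.mul_sum]
        have h1 := hfl (f + t * N)
        have h2 := hfl 0
        have h3 : ((∑ i, ⌊((f + t * N : ℤ):ℝ) * r i + θ i⌋ : ℤ) : ℝ) =
            ((f + t * N + ∑ i, ⌊((0:ℤ):ℝ) * r i + θ i⌋ : ℤ) : ℝ) := by
          push_cast at h1 h2 ⊢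
          linarith
        have h4 : (∑ i, ⌊((f + t * N : ℤ):ℝ) * r i + θ i⌋ : ℤ) =
            f + t * N + ∑ i, ⌊((0:ℤ):ℝ) * r i + θ i⌋ := by exact_mod_cast h3
        rw [h4]
        have h5 : ∑ i, z i = N := by omega
        rw [h5]
        ring }

/-- Dirichlet's theorem with individual precisions -/
lemma dirichlet {ι : Type*} [DecidableEq ι] (S : Finset ι) (r : ι → ℝ) (Q : ι → ℕ)
    (hQ : ∀ i, 0 < Q i) :
    ∃ N : ℕ, 0 < N ∧ N ≤ ∏ i ∈ S, Q i ∧ ∃ z : ι → ℤ, ∀ i ∈ S, |N * r i - z i| ≤ 1 / Q i := by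
  classical
  set B := Fintype.piFinset (fun i : S => Finset.range (Q i)) with hB
  have hcard : B.card = ∏ i ∈ S, Q i := by
    rw [hB, Fintype.card_piFinset]
    simp only [Finset.card_range]
    exact Finset.prod_coe_sort S Q
  let g : ℕ → (S → ℕ) := fun m i => ⌊(Q i : ℝ) * Int.fract (m * r i)⌋₊
  have hg : ∀ m ∈ Finset.range (∏ i ∈ S, Q i + 1), g m ∈ B := by
    intro m _
    rw [hB, Fintype.mem_piFinset]
    intro i
    rw [Finset.mem_range]
    have hq : (0:ℝ) < Q i := by exact_mod_cast hQ i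
    rw [Nat.floor_lt (mul_nonneg hq.le (Int.fract_nonneg _))]
    have := Int.fract_lt_one (m * r i)
    nlinarith
  obtain ⟨a, ha, b, hb, hab, hgab⟩ := Finset.exists_ne_map_eq_of_card_lt_of_maps_to
    (by rw [hcard, Finset.card_range]; omega) hg
  wlog hlt : a < b generalizing a b
  · exact this b hb a ha hab.symm hgab.symm (by omega)
  refine ⟨b - a, by omega, ?_, fun i => ⌊(b:ℝ) * r i⌋ - ⌊(a:ℝ) * r i⌋, ?_⟩
  · have := Finset.mem_range.1 hb
    omega
  · intro i hi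
    have h1 := congrFun hgab ⟨i, hi⟩
    simp only [g] at h1
    have hq : (0:ℝ) < Q i := by exact_mod_cast hQ i
    have h2 : ((b - a : ℕ) : ℝ) * r i - ((⌊(b:ℝ) * r i⌋ - ⌊(a:ℝ) * r i⌋ : ℤ) : ℝ) =
        Int.fract (b * r i) - Int.fract (a * r i) := by
      unfold Int.fract
      push_cast [Nat.cast_sub hlt.le]
      ring
    rw [h2]
    have e1 := Nat.floor_le (mul_nonneg hq.le (Int.fract_nonneg ((a:ℝ) * r i)))
    have e2 := Nat.lt_floor_add_one ((Q i : ℝ) * Int.fract ((a:ℝ) * r i))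
    have e3 := Nat.floor_le (mul_nonneg hq.le (Int.fract_nonneg ((b:ℝ) * r i)))
    have e4 := Nat.lt_floor_add_one ((Q i : ℝ) * Int.fract ((b:ℝ) * r i))
    have h1' : (⌊(Q i : ℝ) * Int.fract ((a:ℝ) * r i)⌋₊ : ℝ) =
        (⌊(Q i : ℝ) * Int.fract ((b:ℝ) * r i)⌋₊ : ℝ) := by exact_mod_cast h1
    rw [le_div_iff₀ hq]
    have : |Int.fract ((b:ℝ) * r i) - Int.fract ((a:ℝ) * r i)| * Q i =
        |(Q i : ℝ) * Int.fract ((b:ℝ) * r i) - Q i * Int.fract ((a:ℝ) * r i)| := by
      rw [← mul_sub, abs_mul, abs_of_pos hq, mul_comm]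
    rw [this, abs_le]
    constructor <;> linarith

/-- the precision used for the letter `i` -/
noncomputable def Q {n : ℕ} (r : Fin n → ℝ) (i : Fin n) : ℕ := ⌈4 / r i⌉₊

lemma Q_pos {n : ℕ} {r : Fin n → ℝ} (hr : ∀ i, 0 < r i) (i : Fin n) : 0 < Q r i := by
  unfold Q
  rw [Nat.ceil_pos]
  exact div_pos (by norm_num) (hr i)

lemma Q_le {n : ℕ} {r : Fin n → ℝ} (hr : ∀ i, 0 < r i) (i : Fin n) :
    1 / (Q r i : ℝ) ≤ r i / 4 := by
  have h1 : 4 / r i ≤ Q r i := Nat.le_ceil _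
  have h2 : (0:ℝ) < Q r i := by exact_mod_cast Q_pos hr i
  rw [div_le_iff₀ (hr i)] at h1
  rw [div_le_iff₀ h2]
  linarith

/-- if `r` is not of two-letter type, the letters outside `S` are not too rare -/
lemma rare {n : ℕ} {r θ : Fin n → ℝ} {c : ℝ} (hr : ∀ i, 0 < r i)
    (hs : ∑ i, r i = 1) (hc : ∀ j : ℤ, ∑ i, Int.fract ((j:ℝ) * r i + θ i) = c)
    (hT : ¬ TwoLetter r) (S : Finset (Fin n)) (hS : S ≠ Finset.univ) :
    1 / 4 < ((∏ i ∈ S, Q r i : ℕ) : ℝ) * ∑ i ∈ Sᶜ, r i := by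
  classical
  by_contra hcon
  push Not at hcon
  apply hT
  obtain ⟨N, hN, hNP, z, hz⟩ := dirichlet S r (Q r) (Q_pos hr)
  have hNP' : (N : ℝ) ≤ ((∏ i ∈ S, Q r i : ℕ) : ℝ) := by exact_mod_cast hNP
  have hN' : (0:ℝ) < N := by exact_mod_cast hN
  have hzS : ∀ i ∈ S, |N * r i - z i| ≤ r i / 4 := fun i hi => (hz i hi).trans (Q_le hr i)
  apply twoLetter_of_small hr hs hc N (fun i => if i ∈ S then z i else 0)
  · intro i
    by_cases hi : i ∈ S
    · have := (abs_le.1 (hzS i hi)).1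
      simp only [hi, if_true]
      push_cast
      linarith [hr i]
    · simp only [hi, if_false]
      push_cast
      nlinarith [hr i]
  · rw [← Finset.sum_add_sum_compl S]
    have h1 : ∑ i ∈ S, |((N:ℤ):ℝ) * r i - ((if i ∈ S then z i else 0 : ℤ) : ℝ)| ≤ 1 / 4 := by
      calc ∑ i ∈ S, |((N:ℤ):ℝ) * r i - ((if i ∈ S then z i else 0 : ℤ) : ℝ)|
          ≤ ∑ i ∈ S, r i / 4 := by
            apply Finset.sum_le_sum
            intro i hi
            simp only [hi, if_true]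
            exact_mod_cast hzS i hi
        _ = (∑ i ∈ S, r i) / 4 := by rw [Finset.sum_div]
        _ ≤ (∑ i, r i) / 4 := by
            apply div_le_div_of_nonneg_right _ (by norm_num)
            exact Finset.sum_le_sum_of_subset_of_nonneg (Finset.subset_univ _)
              fun i _ _ => (hr i).le
        _ = 1 / 4 := by rw [hs]
    have h2 : ∑ i ∈ Sᶜ, |((N:ℤ):ℝ) * r i - ((if i ∈ S then z i else 0 : ℤ) : ℝ)| ≤ 1 / 4 := by
      calc ∑ i ∈ Sᶜ, |((N:ℤ):ℝ) * r i - ((if i ∈ S then z i else 0 : ℤ) : ℝ)|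
          = ∑ i ∈ Sᶜ, (N:ℝ) * r i := by
            apply Finset.sum_congr rfl
            intro i hi
            have hi' : i ∉ S := Finset.mem_compl.1 hi
            simp only [hi', if_false]
            push_cast
            rw [sub_zero, abs_of_pos (mul_pos hN' (hr i))]
        _ = N * ∑ i ∈ Sᶜ, r i := by rw [Finset.mul_sum]
        _ ≤ _ := mul_le_mul_of_nonneg_right hNP' (Finset.sum_nonneg fun i _ => (hr i).le)
        _ ≤ 1 / 4 := hcon
    linarith
  · obtain ⟨i, hi⟩ : ∃ i, i ∉ S := by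
      by_contra h
      push Not at h
      exact hS (Finset.eq_univ_iff_forall.2 h)
    refine ⟨i, ?_⟩
    simp only [hi, if_false]
    push_cast
    rw [sub_zero]
    exact (mul_pos hN' (hr i)).ne'

lemma grow {n : ℕ} {r θ : Fin n → ℝ} {c : ℝ} (hr : ∀ i, 0 < r i)
    (hs : ∑ i, r i = 1) (hc : ∀ j : ℤ, ∑ i, Int.fract ((j:ℝ) * r i + θ i) = c)
    (hT : ¬ TwoLetter r) (m : ℕ) (hm : m ≤ n) :
    ∃ S : Finset (Fin n), S.card = m ∧ 16 * n * ∏ i ∈ S, Q r i ≤ (16 * n) ^ (2 ^ m) := by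
  classical
  induction m with
  | zero => exact ⟨∅, rfl, by simp⟩
  | succ m ih =>
    obtain ⟨S, hcard, hS⟩ := ih (by omega)
    have hne : S ≠ Finset.univ := by
      intro h
      rw [h, Finset.card_univ, Fintype.card_fin] at hcard
      omega
    have hcne : Sᶜ.Nonempty := by
      rw [Finset.nonempty_iff_ne_empty]
      intro h
      exact hne (Finset.compl_eq_empty_iff S |>.1 h)
    obtain ⟨i, hi, hmax⟩ := Finset.exists_max_image Sᶜ r hcne
    have hi' : i ∉ S := Finset.mem_compl.1 hi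
    have h1 := rare hr hs hc hT S hne
    set P := ∏ i ∈ S, Q r i with hP
    have h2 : ∑ j ∈ Sᶜ, r j ≤ n * r i := by
      calc ∑ j ∈ Sᶜ, r j ≤ ∑ j ∈ Sᶜ, r i := Finset.sum_le_sum hmax
        _ = Sᶜ.card * r i := by rw [Finset.sum_const, nsmul_eq_mul]
        _ ≤ n * r i := by
            apply mul_le_mul_of_nonneg_right _ (hr i).le
            have := Finset.card_le_univ Sᶜ
            rw [Fintype.card_fin] at this
            exact_mod_cast this
    have h3 : 1 / 4 < (P : ℝ) * (n * r i) :=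
      lt_of_lt_of_le h1 (mul_le_mul_of_nonneg_left h2 (Nat.cast_nonneg _))
    have h4 : Q r i ≤ 16 * n * P := by
      unfold Q
      rw [Nat.ceil_le, div_le_iff₀ (hr i)]
      push_cast
      linarith
    refine ⟨insert i S, by rw [Finset.card_insert_of_notMem hi', hcard], ?_⟩
    rw [Finset.prod_insert hi', ← hP, pow_succ, pow_mul]
    calc 16 * n * (Q r i * P) ≤ 16 * n * ((16 * n * P) * P) := by
          apply Nat.mul_le_mul_left
          exact Nat.mul_le_mul_right _ h4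
      _ = (16 * n * P) ^ 2 := by ring
      _ ≤ ((16 * n) ^ 2 ^ m) ^ 2 := Nat.pow_le_pow_left hS 2

/-- **the effective theorem** (identity form): if `∑ i, {j r i + θ i}` is constant, then `r` is of
two-letter type or has a common denominator at most `(16 n) ^ (2 ^ n - 1)`. -/
theorem effective_aux {n : ℕ} {r θ : Fin n → ℝ} {c : ℝ} (hr : ∀ i, 0 < r i)
    (hs : ∑ i, r i = 1) (hc : ∀ j : ℤ, ∑ i, Int.fract ((j:ℝ) * r i + θ i) = c)
    (hT : ¬ TwoLetter r) :
    ∃ L : ℕ, 0 < L ∧ L ≤ (16 * n) ^ (2 ^ n - 1) ∧ ∀ i, ∃ z : ℤ, (L:ℝ) * r i = z := by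
  classical
  have hn : 0 < n := by
    rcases Nat.eq_zero_or_pos n with h | h
    · subst h
      simp at hs
    · exact h
  obtain ⟨S, hcard, hS⟩ := grow hr hs hc hT n (le_refl n)
  have hSu : S = Finset.univ := by
    rw [← Finset.card_eq_iff_eq_univ, hcard, Fintype.card_fin]
  subst hSu
  obtain ⟨N, hN, hNP, z, hz⟩ := dirichlet Finset.univ r (Q r) (Q_pos hr)
  refine ⟨N, hN, ?_, ?_⟩
  · refine hNP.trans ?_
    have h1 : 2 ^ n = (2 ^ n - 1) + 1 := by
      have := Nat.one_le_two_pow (n := n)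
      omega
    rw [h1, pow_succ, mul_comm ((16 * n) ^ (2 ^ n - 1))] at hS
    exact Nat.le_of_mul_le_mul_left hS (by omega)
  · by_contra hcon
    push Not at hcon
    obtain ⟨i₀, hi₀⟩ := hcon
    apply hT
    have hzS : ∀ i, |N * r i - z i| ≤ r i / 4 :=
      fun i => (hz i (Finset.mem_univ _)).trans (Q_le hr i)
    apply twoLetter_of_small hr hs hc N z
    · intro i
      have := (abs_le.1 (hzS i)).1
      push_cast
      linarith [hr i]
    · calc ∑ i, |((N:ℤ):ℝ) * r i - z i| ≤ ∑ i, r i / 4 := by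
            apply Finset.sum_le_sum
            intro i _
            exact_mod_cast hzS i
        _ = (∑ i, r i) / 4 := by rw [Finset.sum_div]
        _ ≤ 1 / 2 := by rw [hs]; norm_num
    · refine ⟨i₀, ?_⟩
      have := hi₀ (z i₀)
      push_cast
      exact sub_ne_zero.2 this

/-- **the effective theorem** for admissible tuples -/
theorem effective {n : ℕ} {r : Fin n → ℝ} (h01 : ∀ i, 0 < r i ∧ r i < 1)
    (hs : ∑ i, r i = 1) (ha : Admissible r) (hT : ¬ TwoLetter r) :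
    ∃ L : ℕ, 0 < L ∧ L ≤ (16 * n) ^ (2 ^ n - 1) ∧ ∀ i, ∃ z : ℤ, (L:ℝ) * r i = z := by
  obtain ⟨θ, -, hcov⟩ := ha
  obtain ⟨c, hc⟩ := sum_fract_const (fun i => (h01 i).1) (fun i => (h01 i).2) hs hcov
  exact effective_aux (fun i => (h01 i).1) hs hc hT

end Pool.Agent.Helper7.FE
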